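import Mathlib
import Pool.Agent.R528.RM.Basic

/-! # Adapted random sets with varying densities: empty blocks -/

set_option autoImplicit false
set_option linter.unusedSectionVars false

open MeasureTheory Filter Set
open scoped ENNReal Topology

namespace Pool.Agent.J6H15.SM

open Pool.Agent.R528.RM

section

variable {Ω : Type} {m0 : MeasurableSpace Ω} {μ : Measure Ω} [IsProbabilityMeasure μ]
  {ℱ : Filtration ℕ m0} {A : ℕ → Set Ω}

/-- the next `L` integers are absent and the times are good -/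
def NN (A G : ℕ → Set Ω) (s L : ℕ) : Set Ω := {ω | ∀ i < L, ω ∈ G (s + i) ∧ ω ∉ A (s + i + 1)}

/-- none of the next `L` integers is present at a good time -/
def DD (A G : ℕ → Set Ω) (s L : ℕ) : Set Ω := {ω | ∀ i < L, ¬ (ω ∈ G (s + i) ∧ ω ∈ A (s + i + 1))}

lemma NN_succ (A G : ℕ → Set Ω) (s L : ℕ) : NN A G s (L + 1) = (NN A G s L ∩ G (s + L)) \ A (s + L + 1) := by
  ext ω
  simp only [NN, mem_ofPred_eq, Set.mem_sdiff, mem_inter_iff]
  constructor
  · intro h
    exact ⟨⟨fun i hi => h i (by omega), (h L (by omega)).1⟩, (h L (by omega)).2⟩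
  · rintro ⟨⟨h1, h2⟩, h3⟩ i hi
    rcases Nat.lt_or_ge i L with h4 | h4
    · exact h1 i h4
    · obtain rfl : i = L := by omega
      exact ⟨h2, h3⟩

lemma DD_succ (A G : ℕ → Set Ω) (s L : ℕ) : DD A G s (L + 1) = DD A G s L \ (G (s + L) ∩ A (s + L + 1)) := by
  ext ω
  simp only [DD, mem_ofPred_eq, Set.mem_sdiff, mem_inter_iff]
  constructor
  · intro h
    exact ⟨fun i hi => h i (by omega), h L (by omega)⟩
  · rintro ⟨h1, h3⟩ i hi
    rcases Nat.lt_or_ge i L with h4 | h4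
    · exact h1 i h4
    · obtain rfl : i = L := by omega
      exact h3

lemma NN_zero (A G : ℕ → Set Ω) (s : ℕ) : NN A G s 0 = univ := by
  ext ω
  simp [NN]

lemma DD_zero (A G : ℕ → Set Ω) (s : ℕ) : DD A G s 0 = univ := by
  ext ω
  simp [DD]

lemma NN_meas (hA : ∀ n, MeasurableSet[ℱ n] (A n)) {G : ℕ → Set Ω} (hG : ∀ n, MeasurableSet[ℱ n] (G n))
    (s L : ℕ) : MeasurableSet[ℱ (s + L)] (NN A G s L) := by
  induction L with
  | zero =>
    rw [NN_zero]
    exact MeasurableSet.univ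
  | succ L ih =>
    rw [NN_succ]
    exact (ℱ.mono (Nat.le_succ (s + L)) _ (ih.inter (hG (s + L)))).diff (hA (s + L + 1))

lemma DD_meas (hA : ∀ n, MeasurableSet[ℱ n] (A n)) {G : ℕ → Set Ω} (hG : ∀ n, MeasurableSet[ℱ n] (G n))
    (s L : ℕ) : MeasurableSet[ℱ (s + L)] (DD A G s L) := by
  induction L with
  | zero =>
    rw [DD_zero]
    exact MeasurableSet.univ
  | succ L ih =>
    rw [DD_succ]
    exact (ℱ.mono (Nat.le_succ (s + L)) _ ih).diff
      ((ℱ.mono (Nat.le_succ (s + L)) _ (hG (s + L))).inter (hA (s + L + 1)))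

/-- upper bound for the probability of an empty block -/
theorem NN_le (hA : ∀ n, MeasurableSet[ℱ n] (A n)) {G : ℕ → Set Ω} (hG : ∀ n, MeasurableSet[ℱ n] (G n))
    {a : ℕ → ℝ} (ha : ∀ n, ∀ ω ∈ G n, a n ≤ dens μ ℱ A n ω) (ha1 : ∀ n, a n ≤ 1) (s L : ℕ) :
    μ.real (NN A G s L) ≤ ∏ i ∈ Finset.range L, (1 - a (s + i)) := by
  induction L with
  | zero =>
    rw [NN_zero, Finset.range_zero, Finset.prod_empty]
    exact measureReal_le_one
  | succ L ih =>
    have hm := (NN_meas hA hG s L).inter (hG (s + L))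
    have h1 := lower_meas (μ := μ) hA (s + L) hm (l := a (s + L)) (fun ω hω => ha _ ω hω.2)
    have hB' : MeasurableSet (A (s + L + 1)) := ℱ.le _ _ (hA (s + L + 1))
    have h2 := measureReal_inter_add_sdiff (μ := μ) (s := NN A G s L ∩ G (s + L)) hB'
    have h3 : μ.real (NN A G s L ∩ G (s + L)) ≤ μ.real (NN A G s L) := measureReal_mono inter_subset_left
    rw [NN_succ, Finset.prod_range_succ]
    have h4 : 0 ≤ 1 - a (s + L) := by linarith [ha1 (s + L)]
    calc μ.real ((NN A G s L ∩ G (s + L)) \ A (s + L + 1))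
        ≤ (1 - a (s + L)) * μ.real (NN A G s L ∩ G (s + L)) := by linarith
      _ ≤ (1 - a (s + L)) * ∏ i ∈ Finset.range L, (1 - a (s + i)) := by
        gcongr
        exact h3.trans ih
      _ = _ := mul_comm _ _

/-- lower bound for the conditional probability of an empty block -/
theorem DD_ge (hA : ∀ n, MeasurableSet[ℱ n] (A n)) {G : ℕ → Set Ω} (hG : ∀ n, MeasurableSet[ℱ n] (G n))
    {a : ℕ → ℝ} (ha : ∀ n, ∀ ω ∈ G n, dens μ ℱ A n ω ≤ a n) (ha0 : ∀ n, 0 ≤ a n) (s : ℕ) {F : Set Ω}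
    (hF : MeasurableSet[ℱ s] F) (L : ℕ) (ha1 : ∀ i < L, a (s + i) ≤ 1) :
    (∏ i ∈ Finset.range L, (1 - a (s + i))) * μ.real F ≤ μ.real (F ∩ DD A G s L) := by
  induction L with
  | zero =>
    rw [DD_zero, Finset.range_zero, Finset.prod_empty, one_mul, inter_univ]
  | succ L ih =>
    have hFm : MeasurableSet[ℱ (s + L)] F := ℱ.mono (Nat.le_add_right s L) _ hF
    have hB0 := hFm.inter (DD_meas hA hG s L)
    have hm := hB0.inter (hG (s + L))
    have h1 := upper_meas (μ := μ) hA (s + L) hm (u := a (s + L)) (fun ω hω => ha _ ω hω.2)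
    have hB' : MeasurableSet (G (s + L) ∩ A (s + L + 1)) :=
      (ℱ.le _ _ (hG (s + L))).inter (ℱ.le _ _ (hA (s + L + 1)))
    have h2 := measureReal_inter_add_sdiff (μ := μ) (s := F ∩ DD A G s L) hB'
    have h3 : μ.real (F ∩ DD A G s L ∩ G (s + L)) ≤ μ.real (F ∩ DD A G s L) := measureReal_mono inter_subset_left
    have h5 : F ∩ DD A G s L ∩ (G (s + L) ∩ A (s + L + 1)) = F ∩ DD A G s L ∩ G (s + L) ∩ A (s + L + 1) := by
      rw [inter_assoc (F ∩ DD A G s L)]
    rw [h5] at h2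
    have h6 : F ∩ DD A G s (L + 1) = (F ∩ DD A G s L) \ (G (s + L) ∩ A (s + L + 1)) := by
      rw [DD_succ, inter_sdiff_assoc]
    rw [h6, Finset.prod_range_succ]
    have h4 : 0 ≤ 1 - a (s + L) := by linarith [ha1 L (by omega)]
    have h7 := ih (fun i hi => ha1 i (by omega))
    have h8 : a (s + L) * μ.real (F ∩ DD A G s L ∩ G (s + L)) ≤ a (s + L) * μ.real (F ∩ DD A G s L) :=
      mul_le_mul_of_nonneg_left h3 (ha0 _)
    calc (∏ i ∈ Finset.range L, (1 - a (s + i))) * (1 - a (s + L)) * μ.real F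
        = (1 - a (s + L)) * ((∏ i ∈ Finset.range L, (1 - a (s + i))) * μ.real F) := by ring
      _ ≤ (1 - a (s + L)) * μ.real (F ∩ DD A G s L) := by gcongr
      _ ≤ _ := by linarith

/-- no success in the first `j` blocks -/
def BB (A G : ℕ → Set Ω) (s L : ℕ) : ℕ → Set Ω
  | 0 => univ
  | j + 1 => BB A G s L j \ DD A G (s + j * L) L

lemma BB_meas (hA : ∀ n, MeasurableSet[ℱ n] (A n)) {G : ℕ → Set Ω} (hG : ∀ n, MeasurableSet[ℱ n] (G n))
    (s L j : ℕ) : MeasurableSet[ℱ (s + j * L)] (BB A G s L j) := by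
  induction j with
  | zero => exact MeasurableSet.univ
  | succ j ih =>
    have e1 : s + (j + 1) * L = s + j * L + L := by ring
    rw [e1]
    exact (ℱ.mono (Nat.le_add_right _ _) _ ih).diff (DD_meas hA hG (s + j * L) L)

theorem BB_le (hA : ∀ n, MeasurableSet[ℱ n] (A n)) {G : ℕ → Set Ω} (hG : ∀ n, MeasurableSet[ℱ n] (G n))
    {a : ℕ → ℝ} (ha : ∀ n, ∀ ω ∈ G n, dens μ ℱ A n ω ≤ a n) (ha0 : ∀ n, 0 ≤ a n) (s L : ℕ) {q : ℝ} (hq1 : q ≤ 1)
    (J : ℕ) (hq : ∀ j < J, (∀ i < L, a (s + j * L + i) ≤ 1) ∧ q ≤ ∏ i ∈ Finset.range L, (1 - a (s + j * L + i))) :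
    μ.real (BB A G s L J) ≤ (1 - q) ^ J := by
  induction J with
  | zero =>
    rw [pow_zero]
    exact measureReal_le_one
  | succ J ih =>
    obtain ⟨g1, g2⟩ := hq J (by omega)
    have h1 := DD_ge (μ := μ) hA hG ha ha0 (s + J * L) (BB_meas hA hG s L J) L g1
    have hB' : MeasurableSet (DD A G (s + J * L) L) := ℱ.le _ _ (DD_meas hA hG (s + J * L) L)
    have h2 := measureReal_inter_add_sdiff (μ := μ) (s := BB A G s L J) hB'
    have h3 : q * μ.real (BB A G s L J) ≤ (∏ i ∈ Finset.range L, (1 - a (s + J * L + i))) * μ.real (BB A G s L J) :=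
      mul_le_mul_of_nonneg_right g2 measureReal_nonneg
    have h4 := ih (fun j hj => hq j (by omega))
    calc μ.real (BB A G s L (J + 1)) = μ.real (BB A G s L J \ DD A G (s + J * L) L) := rfl
      _ ≤ (1 - q) * μ.real (BB A G s L J) := by linarith
      _ ≤ (1 - q) * (1 - q) ^ J := by
        apply mul_le_mul_of_nonneg_left h4
        linarith
      _ = (1 - q) ^ (J + 1) := by ring

lemma not_mem_BB {A G : ℕ → Set Ω} {s L J : ℕ} {ω : Ω} (h : ω ∉ BB A G s L J) : ∃ j < J, ω ∈ DD A G (s + j * L) L := by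
  induction J with
  | zero => exact absurd (mem_univ ω) h
  | succ J ih =>
    by_cases h1 : ω ∈ BB A G s L J
    · refine ⟨J, by omega, ?_⟩
      by_contra h2
      exact h ⟨h1, h2⟩
    · obtain ⟨j, hj, h2⟩ := ih h1
      exact ⟨j, by omega, h2⟩

/-- Borel-Cantelli with a power bound -/
theorem bc (N : ℕ → Set Ω) (c : ℝ) (hc : 1 < c) (h : ∀ᶠ m : ℕ in atTop, μ.real (N m) ≤ (m : ℝ) ^ (-c)) :
    ∀ᵐ ω ∂μ, ∀ᶠ m : ℕ in atTop, ω ∉ N m := by
  obtain ⟨m1, hm1⟩ := eventually_atTop.1 h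
  have hs : (∑' m, μ (if m1 ≤ m then N m else ∅)) ≠ ∞ := by
    have h1 : ∀ m, μ (if m1 ≤ m then N m else ∅) ≤ ENNReal.ofReal ((m : ℝ) ^ (-c)) := by
      intro m
      split_ifs with h2
      · rw [← ENNReal.ofReal_toReal (measure_ne_top μ (N m))]
        exact ENNReal.ofReal_le_ofReal (hm1 m h2)
      · rw [measure_empty]
        exact zero_le'
    have h2 : Summable (fun m : ℕ => (m : ℝ) ^ (-c)) := Real.summable_nat_rpow.2 (by linarith)
    refine ne_top_of_le_ne_top ?_ (ENNReal.tsum_le_tsum h1)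
    rw [← ENNReal.ofReal_tsum_of_nonneg (fun m => Real.rpow_nonneg (Nat.cast_nonneg m) _) h2]
    exact ENNReal.ofReal_ne_top
  filter_upwards [ae_eventually_notMem hs] with ω hω
  filter_upwards [hω, eventually_ge_atTop m1] with m h2 h3
  rwa [if_pos h3] at h2

end

end Pool.Agent.J6H15.SM
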