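import Mathlib
import Pool.Agent.J6H15.SM.Prob

/-! # Adapted random sets with varying densities: the longest empty blocks -/

set_option autoImplicit false
set_option linter.unusedSectionVars false

open MeasureTheory Filter Set
open scoped ENNReal Topology

namespace Pool.Agent.J6H15.SM

open Pool.Agent.R528.RM

/-- the length of the block -/
noncomputable def blk (c : ℝ) (m : ℕ) : ℕ := ⌊c * Real.log m ^ 2⌋₊

lemma sum_blk (f : ℕ → ℝ) (m L : ℕ) : ∑ i ∈ Finset.range L, f (m + i + 1) = ∑ n ∈ Finset.Ioc m (m + L), f n := by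
  rw [show Finset.Ioc m (m + L) = (Finset.range L).image (fun i => m + i + 1) from ?_,
    Finset.sum_image (fun a _ b _ hab => by simpa using hab)]
  ext n
  simp only [Finset.mem_Ioc, Finset.mem_image, Finset.mem_range]
  constructor
  · rintro ⟨h1, h2⟩
    exact ⟨n - m - 1, by omega, by omega⟩
  · rintro ⟨i, h1, rfl⟩
    omega

lemma logN' : Tendsto (fun n : ℕ => Real.log (n : ℝ)) atTop atTop :=
  Real.tendsto_log_atTop.comp tendsto_natCast_atTop_atTop

lemma prod_le_exp (f : ℕ → ℝ) (L : ℕ) (h : ∀ i < L, f i ≤ 1) :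
    ∏ i ∈ Finset.range L, (1 - f i) ≤ Real.exp (-∑ i ∈ Finset.range L, f i) := by
  rw [← Finset.sum_neg_distrib, Real.exp_sum]
  apply Finset.prod_le_prod
  · intro i hi
    linarith [h i (Finset.mem_range.1 hi)]
  · intro i _
    exact Real.one_sub_le_exp_neg _

lemma exp_le_prod (ε : ℝ) (hε : 0 < ε) (f : ℕ → ℝ) (L : ℕ) (h0 : ∀ i < L, 0 ≤ f i)
    (h : ∀ i < L, f i ≤ ε / (1 + ε)) :
    Real.exp (-((1 + ε) * ∑ i ∈ Finset.range L, f i)) ≤ ∏ i ∈ Finset.range L, (1 - f i) := by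
  rw [Finset.mul_sum, ← Finset.sum_neg_distrib, Real.exp_sum]
  apply Finset.prod_le_prod
  · intro i _
    exact (Real.exp_pos _).le
  · intro i hi
    have hi' := Finset.mem_range.1 hi
    have g0 := h0 i hi'
    have g1 := h i hi'
    have e1 : ε / (1 + ε) = 1 - 1 / (1 + ε) := by field_simp; ring
    have g2 : 1 / (1 + ε) ≤ 1 - f i := by linarith
    have g3 : 0 < 1 - f i := lt_of_lt_of_le (by positivity) g2
    have g4 := Real.one_sub_inv_le_log_of_pos g3
    rw [← Real.le_log_iff_exp_le g3]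
    refine le_trans ?_ g4
    have g5 : (1 - f i)⁻¹ ≤ 1 + ε := by
      rw [inv_le_comm₀ g3 (by positivity), ← one_div]
      exact g2
    have g6 : (1 - f i)⁻¹ = 1 + f i * (1 - f i)⁻¹ := by field_simp; ring
    rw [g6]
    nlinarith

section

variable {Ω : Type} {m0 : MeasurableSpace Ω} {μ : Measure Ω} [IsProbabilityMeasure μ]
  {ℱ : Filtration ℕ m0} {A : ℕ → Set Ω}

theorem as_fin (hA : ∀ n, MeasurableSet[ℱ n] (A n)) (ρ : ℕ → ℝ) (hρ : ∀ n, 0 ≤ ρ n ∧ ρ n ≤ 1)
    (hprof : ∀ᵐ ω ∂μ, ∀ ε : ℝ, 0 < ε → ∀ᶠ n : ℕ in atTop,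
      |dens μ ℱ A n ω - ρ (n + 1)| ≤ ε * ρ (n + 1))
    (hsum : ∀ c : ℝ, 0 < c → Tendsto (fun m : ℕ => (∑ n ∈ Finset.Ioc m (m + blk c m), ρ n) / Real.log m)
      atTop (𝓝 c)) (c : ℝ) (hc : 1 < c) :
    ∀ᵐ ω ∂μ, ∀ᶠ m : ℕ in atTop, ∃ n, m < n ∧ n ≤ m + blk c m ∧ ω ∈ A n := by
  obtain ⟨ε, hε⟩ : ∃ ε : ℝ, ε = (c - 1) / (4 * c) := ⟨_, rfl⟩
  have hε0 : 0 < ε := by rw [hε]; apply div_pos <;> linarith
  have hε1 : ε < 1 := by rw [hε, div_lt_one (by linarith)]; linarith
  have hεc : 1 < (1 - ε) * ((1 - ε) * c) := by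
    have h1 : ε * (4 * c) = c - 1 := by rw [hε]; field_simp
    nlinarith
  obtain ⟨a, ha⟩ : ∃ a : ℕ → ℝ, a = fun n => (1 - ε) * ρ (n + 1) := ⟨_, rfl⟩
  obtain ⟨G, hG⟩ : ∃ G : ℕ → Set Ω, G = fun n => {ω | a n ≤ dens μ ℱ A n ω} := ⟨_, rfl⟩
  have hGm : ∀ n, MeasurableSet[ℱ n] (G n) := by
    intro n
    rw [hG]
    exact (dens_meas n).measurable measurableSet_Ici
  have ha1 : ∀ n, a n ≤ 1 := by
    intro n
    rw [ha]
    have := hρ (n + 1)
    simp only
    nlinarith
  have hN : ∀ᶠ m : ℕ in atTop, μ.real (NN A G m (blk c m)) ≤ (m : ℝ) ^ (-((1 - ε) * ((1 - ε) * c))) := by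
    have h1 : (1 - ε) * c < c := by nlinarith
    filter_upwards [(hsum c (by linarith)).eventually (lt_mem_nhds h1), logN'.eventually_gt_atTop 0,
      eventually_ge_atTop 1] with m h2 h3 h4
    rw [lt_div_iff₀ h3] at h2
    have hm0 : (0 : ℝ) < m := by exact_mod_cast h4
    refine (NN_le hA hGm (a := a) (fun n ω hω => by rw [hG] at hω; exact hω) ha1 m (blk c m)).trans ?_
    refine (prod_le_exp (fun i => a (m + i)) (blk c m) (fun i _ => ha1 _)).trans ?_
    rw [Real.rpow_def_of_pos hm0]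
    apply Real.exp_le_exp.2
    have h5 : ∑ i ∈ Finset.range (blk c m), a (m + i) = (1 - ε) * ∑ n ∈ Finset.Ioc m (m + blk c m), ρ n := by
      rw [← sum_blk, Finset.mul_sum, ha]
    rw [h5]
    have h6 : (1 - ε) * ((1 - ε) * c * Real.log m) ≤ (1 - ε) * ∑ n ∈ Finset.Ioc m (m + blk c m), ρ n := by
      apply mul_le_mul_of_nonneg_left h2.le
      linarith
    linarith
  filter_upwards [bc _ _ hεc hN, hprof] with ω h1 h2
  have h3 := eventually_forall_ge_atTop.2 (h2 ε hε0)
  filter_upwards [h1, h3] with m h4 h5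
  by_contra hcon
  push Not at hcon
  apply h4
  intro i hi
  constructor
  · have h6 := (abs_le.1 (h5 (m + i) (by omega))).1
    rw [hG]
    show a (m + i) ≤ _
    rw [ha]
    simp only
    linarith
  · exact hcon (m + i + 1) (by omega) (by omega)

theorem as_io (hA : ∀ n, MeasurableSet[ℱ n] (A n)) (ρ : ℕ → ℝ) (hρ : ∀ n, 0 ≤ ρ n ∧ ρ n ≤ 1)
    (hρ0 : Tendsto ρ atTop (𝓝 0))
    (hprof : ∀ᵐ ω ∂μ, ∀ ε : ℝ, 0 < ε → ∀ᶠ n : ℕ in atTop,
      |dens μ ℱ A n ω - ρ (n + 1)| ≤ ε * ρ (n + 1))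
    (hsum : ∀ c : ℝ, 0 < c → Tendsto (fun m : ℕ => (∑ n ∈ Finset.Ioc m (m + blk c m), ρ n) / Real.log m)
      atTop (𝓝 c)) (c : ℝ) (hc0 : 0 < c) (hc : c < 1) :
    ∀ᵐ ω ∂μ, ∀ᶠ X : ℕ in atTop, ∃ s, X ≤ s ∧ s ≤ 2 * X ∧ ∀ n, s < n → n ≤ s + blk c X → ω ∉ A n := by
  obtain ⟨ε, hε⟩ : ∃ ε : ℝ, ε = (1 - c) / 14 := ⟨_, rfl⟩
  have hε0 : 0 < ε := by rw [hε]; linarith
  have hε1 : ε < 1 := by rw [hε]; linarith
  obtain ⟨κ, hκ⟩ : ∃ κ : ℝ, κ = (1 + c) / 2 := ⟨_, rfl⟩
  have hκ0 : 0 < κ := by rw [hκ]; linarith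
  have hκ1 : κ < 1 := by rw [hκ]; linarith
  have hεκ : (1 + ε) * ((1 + ε) * ((1 + ε) * c)) ≤ κ := by
    have h1 : (1 + ε) * ((1 + ε) * (1 + ε)) ≤ 1 + 7 * ε := by
      have g1 : ε * ε ≤ ε := by nlinarith
      have g2 : ε * ε * ε ≤ ε := by nlinarith
      have g3 : (1 + ε) * ((1 + ε) * (1 + ε)) = 1 + 3 * ε + 3 * (ε * ε) + ε * ε * ε := by ring
      linarith
    have h2 : (1 + 7 * ε) * c ≤ κ := by
      rw [hκ, hε]
      nlinarith
    calc (1 + ε) * ((1 + ε) * ((1 + ε) * c)) = (1 + ε) * ((1 + ε) * (1 + ε)) * c := by ring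
      _ ≤ (1 + 7 * ε) * c := by gcongr
      _ ≤ κ := h2
  obtain ⟨a, ha⟩ : ∃ a : ℕ → ℝ, a = fun n => (1 + ε) * ρ (n + 1) := ⟨_, rfl⟩
  obtain ⟨G, hG⟩ : ∃ G : ℕ → Set Ω, G = fun n => {ω | dens μ ℱ A n ω ≤ a n} := ⟨_, rfl⟩
  have hGm : ∀ n, MeasurableSet[ℱ n] (G n) := by
    intro n
    rw [hG]
    exact (dens_meas n).measurable measurableSet_Iic
  have ha0 : ∀ n, 0 ≤ a n := by
    intro n
    rw [ha]
    have := (hρ (n + 1)).1
    positivity
  have hasmall : ∀ᶠ n : ℕ in atTop, a n ≤ ε / (1 + ε) := by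
    have h1 : Tendsto a atTop (𝓝 0) := by
      have h2 := ((tendsto_add_atTop_iff_nat 1).2 hρ0).const_mul (1 + ε)
      rw [mul_zero] at h2
      rw [ha]
      exact h2
    filter_upwards [h1.eventually (gt_mem_nhds (show (0 : ℝ) < ε / (1 + ε) by positivity))] with n hn
    exact hn.le
  have hsum2 : ∀ᶠ m : ℕ in atTop, ∑ n ∈ Finset.Ioc m (m + blk c m), ρ n ≤ (1 + ε) * c * Real.log m := by
    have h1 : c < (1 + ε) * c := by nlinarith
    filter_upwards [(hsum c hc0).eventually (gt_mem_nhds h1), logN'.eventually_gt_atTop 0] with m h2 h3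
    rw [div_lt_iff₀ h3] at h2
    exact h2.le
  have hlogs : ∀ᶠ X : ℕ in atTop, 8 * Real.log X ^ 3 ≤ (X : ℝ) ^ (1 - κ) := by
    have h1 := (isLittleO_log_rpow_rpow_atTop (3 : ℝ) (show (0 : ℝ) < 1 - κ by linarith)).bound
      (show (0 : ℝ) < 1 / 8 by norm_num)
    filter_upwards [tendsto_natCast_atTop_atTop.eventually h1, logN'.eventually_ge_atTop 1,
      eventually_ge_atTop 1] with X h2 h3 h4
    rw [Real.norm_eq_abs, Real.norm_eq_abs, abs_of_nonneg (Real.rpow_nonneg (by linarith) _),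
      abs_of_nonneg (Real.rpow_nonneg (Nat.cast_nonneg X) _), show (3 : ℝ) = ((3 : ℕ) : ℝ) by norm_num,
      Real.rpow_natCast] at h2
    linarith
  have hlog2 : ∀ᶠ X : ℕ in atTop, 2 * Real.log X ^ 2 ≤ X := by
    have h1 := (isLittleO_log_rpow_rpow_atTop (2 : ℝ) (show (0 : ℝ) < 1 by norm_num)).bound
      (show (0 : ℝ) < 1 / 2 by norm_num)
    filter_upwards [tendsto_natCast_atTop_atTop.eventually h1, logN'.eventually_ge_atTop 1,
      eventually_ge_atTop 1] with X h2 h3 h4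
    rw [Real.norm_eq_abs, Real.norm_eq_abs, abs_of_nonneg (Real.rpow_nonneg (by linarith) _),
      abs_of_nonneg (Real.rpow_nonneg (Nat.cast_nonneg X) _), show (2 : ℝ) = ((2 : ℕ) : ℝ) by norm_num,
      Real.rpow_natCast, Real.rpow_one] at h2
    linarith
  have hN : ∀ᶠ X : ℕ in atTop, μ.real (BB A G X (blk c X) (X / blk c X)) ≤ (X : ℝ) ^ (-(2 : ℝ)) := by
    filter_upwards [eventually_forall_ge_atTop.2 hasmall, eventually_forall_ge_atTop.2 hsum2, hlogs, hlog2,
      logN'.eventually_ge_atTop (max 1 (1 / c)), eventually_ge_atTop 2] with X h1 h2 h3 h4 h5 h6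
    have hX2 : (2 : ℝ) ≤ X := by exact_mod_cast h6
    have hX0 : (0 : ℝ) < X := by linarith
    have hl1 : 1 ≤ Real.log X := (le_max_left _ _).trans h5
    have hlc : 1 / c ≤ Real.log X := (le_max_right _ _).trans h5
    obtain ⟨L, hL⟩ : ∃ L, L = blk c X := ⟨_, rfl⟩
    obtain ⟨J, hJ⟩ : ∃ J, J = X / L := ⟨_, rfl⟩
    rw [← hL, ← hJ]
    have hcl : 1 ≤ c * Real.log X ^ 2 := by
      rw [div_le_iff₀ hc0] at hlc
      nlinarith
    have hL1 : 1 ≤ L := by
      rw [hL]
      unfold blk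
      exact Nat.le_floor (by exact_mod_cast hcl)
    have hLle : (L : ℝ) ≤ Real.log X ^ 2 := by
      have g1 : (L : ℝ) ≤ c * Real.log X ^ 2 := by
        rw [hL]
        unfold blk
        exact Nat.floor_le (by linarith)
      nlinarith [sq_nonneg (Real.log X)]
    have hJL : J * L ≤ X := by rw [hJ]; exact Nat.div_mul_le_self X L
    have hJlow : (X : ℝ) / (2 * Real.log X ^ 2) ≤ J := by
      have g1 : X < (J + 1) * L := by
        rw [hJ]
        have := Nat.lt_mul_div_succ X (show 0 < L by omega)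
        rwa [mul_comm] at this
      have g2 : (X : ℝ) ≤ (J + 1) * L := by exact_mod_cast g1.le
      rw [div_le_iff₀ (by positivity)]
      have g3 : (J : ℝ) * L ≤ J * Real.log X ^ 2 := by gcongr
      nlinarith
    obtain ⟨q, hq⟩ : ∃ q : ℝ, q = Real.exp (-(κ * Real.log (2 * X))) := ⟨_, rfl⟩
    have hl2X : 0 ≤ Real.log (2 * X) := Real.log_nonneg (by linarith)
    have hq1 : q ≤ 1 := by
      rw [hq]
      apply Real.exp_le_one_iff.2
      have : 0 ≤ κ * Real.log (2 * X) := by positivity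
      linarith
    have hB := BB_le (μ := μ) hA hGm (a := a) (fun n ω hω => by rw [hG] at hω; exact hω) ha0 X L hq1 J
      (fun j hj => by
        have e1 : ε / (1 + ε) ≤ 1 := by
          rw [div_le_one (by positivity)]
          linarith
        have hs1 : X ≤ X + j * L := Nat.le_add_right _ _
        have hs2 : X + j * L ≤ 2 * X := by
          have : j * L ≤ J * L := Nat.mul_le_mul_right _ hj.le
          omega
        refine ⟨fun i _ => (h1 _ (by omega)).trans e1, ?_⟩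
        refine le_trans ?_ (exp_le_prod ε hε0 (fun i => a (X + j * L + i)) L (fun i _ => ha0 _)
          (fun i _ => h1 _ (by omega)))
        rw [hq]
        apply Real.exp_le_exp.2
        have h7 : ∑ i ∈ Finset.range L, a (X + j * L + i) =
            (1 + ε) * ∑ n ∈ Finset.Ioc (X + j * L) (X + j * L + L), ρ n := by
          rw [← sum_blk, Finset.mul_sum, ha]
        have hlog1 : Real.log X ≤ Real.log ((X + j * L : ℕ) : ℝ) := by
          apply Real.log_le_log hX0
          exact_mod_cast hs1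
        have hlog3 : Real.log ((X + j * L : ℕ) : ℝ) ≤ Real.log (2 * X) := by
          apply Real.log_le_log
          · have : (X : ℝ) ≤ ((X + j * L : ℕ) : ℝ) := by exact_mod_cast hs1
            linarith
          · exact_mod_cast hs2
        have h8 : ∑ n ∈ Finset.Ioc (X + j * L) (X + j * L + L), ρ n ≤
            ∑ n ∈ Finset.Ioc (X + j * L) (X + j * L + blk c (X + j * L)), ρ n := by
          apply Finset.sum_le_sum_of_subset_of_nonneg
          · apply Finset.Ioc_subset_Ioc_right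
            have : L ≤ blk c (X + j * L) := by
              rw [hL]
              unfold blk
              apply Nat.floor_le_floor
              gcongr
              exact Nat.le_add_right _ _
            omega
          · intro n _ _
            exact (hρ n).1
        have h9 := h2 (X + j * L) hs1
        have h10 : ∑ n ∈ Finset.Ioc (X + j * L) (X + j * L + L), ρ n ≤ (1 + ε) * c * Real.log (2 * X) := by
          refine (h8.trans h9).trans ?_
          gcongr
        rw [h7]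
        have h11 : (1 + ε) * ((1 + ε) * ∑ n ∈ Finset.Ioc (X + j * L) (X + j * L + L), ρ n) ≤
            (1 + ε) * ((1 + ε) * ((1 + ε) * c * Real.log (2 * X))) := by gcongr
        have h12 : (1 + ε) * ((1 + ε) * ((1 + ε) * c * Real.log (2 * X))) ≤ κ * Real.log (2 * X) := by
          calc (1 + ε) * ((1 + ε) * ((1 + ε) * c * Real.log (2 * X)))
              = (1 + ε) * ((1 + ε) * ((1 + ε) * c)) * Real.log (2 * X) := by ring
            _ ≤ κ * Real.log (2 * X) := by gcongr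
        linarith)
    refine hB.trans ?_
    have hq0 : 0 < q := by rw [hq]; exact Real.exp_pos _
    have h13 : (1 - q) ^ J ≤ Real.exp (-(q * J)) := by
      calc (1 - q) ^ J ≤ (Real.exp (-q)) ^ J := by
            apply pow_le_pow_left₀ (by linarith) (Real.one_sub_le_exp_neg q)
        _ = Real.exp (-(q * J)) := by
            rw [← Real.exp_nat_mul]
            congr 1
            ring
    refine h13.trans ?_
    rw [Real.rpow_def_of_pos hX0]
    apply Real.exp_le_exp.2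
    have hq2 : q = (2 * (X : ℝ)) ^ (-κ) := by
      rw [hq, Real.rpow_def_of_pos (by linarith)]
      congr 1
      ring
    have hq3 : (X : ℝ) ^ (-κ) / 2 ≤ q := by
      rw [hq2, Real.mul_rpow (by norm_num) hX0.le]
      have g1 : (1 / 2 : ℝ) ≤ (2 : ℝ) ^ (-κ) := by
        calc (1 / 2 : ℝ) = (2 : ℝ) ^ (-1 : ℝ) := by rw [Real.rpow_neg_one]; norm_num
          _ ≤ (2 : ℝ) ^ (-κ) := Real.rpow_le_rpow_of_exponent_le (by norm_num) (by linarith)
      have g2 : 0 ≤ (X : ℝ) ^ (-κ) := by positivity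
      nlinarith
    have h14 : 2 * Real.log X ≤ q * J := by
      calc 2 * Real.log X = (8 * Real.log X ^ 3) / (4 * Real.log X ^ 2) := by
            have : Real.log X ≠ 0 := by linarith
            field_simp
            ring
        _ ≤ (X : ℝ) ^ (1 - κ) / (4 * Real.log X ^ 2) := by gcongr
        _ = ((X : ℝ) ^ (-κ) / 2) * ((X : ℝ) / (2 * Real.log X ^ 2)) := by
            rw [show (1 - κ : ℝ) = -κ + 1 by ring, Real.rpow_add hX0, Real.rpow_one]
            field_simp
            ring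
        _ ≤ q * J := by gcongr
    linarith
  filter_upwards [bc _ _ (show (1 : ℝ) < 2 by norm_num) hN, hprof] with ω h1 h2
  have h3 := eventually_forall_ge_atTop.2 (h2 ε hε0)
  filter_upwards [h1, h3] with X h4 h5
  obtain ⟨j, hj, h6⟩ := not_mem_BB h4
  have hjL : j * blk c X ≤ X := (Nat.mul_le_mul_right _ hj.le).trans (Nat.div_mul_le_self X _)
  refine ⟨X + j * blk c X, Nat.le_add_right _ _, by omega, ?_⟩
  intro n hn1 hn2 hn3
  have h7 := h6 (n - (X + j * blk c X) - 1) (by omega)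
  apply h7
  constructor
  · have h8 := (abs_le.1 (h5 (X + j * blk c X + (n - (X + j * blk c X) - 1)) (by omega))).2
    rw [hG]
    show _ ≤ a _
    rw [ha]
    simp only
    linarith
  · have : X + j * blk c X + (n - (X + j * blk c X) - 1) + 1 = n := by omega
    rw [this]
    exact hn3

end

end Pool.Agent.J6H15.SM
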