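import Mathlib
import Pool.Agent.J6H15.SM.As

/-! # Adapted random sets with varying densities: general blocks -/

set_option autoImplicit false
set_option linter.unusedSectionVars false

open MeasureTheory Filter Set
open scoped ENNReal Topology

namespace Pool.Agent.J6H15.SM

open Pool.Agent.R528.RM

section

variable {Ω : Type} {m0 : MeasurableSpace Ω} {μ : Measure Ω} [IsProbabilityMeasure μ]
  {ℱ : Filtration ℕ m0} {A : ℕ → Set Ω}

/-- no success in the first `j` blocks -/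
def BG (A G : ℕ → Set Ω) (s : ℕ → ℕ) (L : ℕ) : ℕ → Set Ω
  | 0 => univ
  | j + 1 => BG A G s L j \ DD A G (s j) L

lemma BG_meas (hA : ∀ n, MeasurableSet[ℱ n] (A n)) {G : ℕ → Set Ω} (hG : ∀ n, MeasurableSet[ℱ n] (G n))
    (s : ℕ → ℕ) (L J : ℕ) (hs : ∀ j < J, s j + L ≤ s (j + 1)) : ∀ j ≤ J, MeasurableSet[ℱ (s j)] (BG A G s L j) := by
  intro j
  induction j with
  | zero =>
    intro _
    exact MeasurableSet.univ
  | succ j ih =>
    intro hj
    have h1 := hs j (by omega)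
    exact (ℱ.mono (by omega) _ (ih (by omega))).diff (ℱ.mono h1 _ (DD_meas hA hG (s j) L))

theorem BG_le (hA : ∀ n, MeasurableSet[ℱ n] (A n)) {G : ℕ → Set Ω} (hG : ∀ n, MeasurableSet[ℱ n] (G n))
    {a : ℕ → ℝ} (ha : ∀ n, ∀ ω ∈ G n, dens μ ℱ A n ω ≤ a n) (ha0 : ∀ n, 0 ≤ a n) (s : ℕ → ℕ) (L : ℕ) {q : ℝ}
    (hq1 : q ≤ 1) (J : ℕ) (hs : ∀ j < J, s j + L ≤ s (j + 1))
    (hq : ∀ j < J, (∀ i < L, a (s j + i) ≤ 1) ∧ q ≤ ∏ i ∈ Finset.range L, (1 - a (s j + i))) :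
    ∀ j ≤ J, μ.real (BG A G s L j) ≤ (1 - q) ^ j := by
  intro j
  induction j with
  | zero =>
    intro _
    rw [pow_zero]
    exact measureReal_le_one
  | succ j ih =>
    intro hj
    obtain ⟨g1, g2⟩ := hq j (by omega)
    have h1 := DD_ge (μ := μ) hA hG ha ha0 (s j) (BG_meas hA hG s L J hs j (by omega)) L g1
    have hB' : MeasurableSet (DD A G (s j) L) := ℱ.le _ _ (DD_meas hA hG (s j) L)
    have h2 := measureReal_inter_add_sdiff (μ := μ) (s := BG A G s L j) hB'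
    have h3 : q * μ.real (BG A G s L j) ≤ (∏ i ∈ Finset.range L, (1 - a (s j + i))) * μ.real (BG A G s L j) :=
      mul_le_mul_of_nonneg_right g2 measureReal_nonneg
    have h4 := ih (by omega)
    calc μ.real (BG A G s L (j + 1)) = μ.real (BG A G s L j \ DD A G (s j) L) := rfl
      _ ≤ (1 - q) * μ.real (BG A G s L j) := by linarith
      _ ≤ (1 - q) * (1 - q) ^ j := by
        apply mul_le_mul_of_nonneg_left h4
        linarith
      _ = (1 - q) ^ (j + 1) := by ring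

lemma not_mem_BG {A G : ℕ → Set Ω} {s : ℕ → ℕ} {L J : ℕ} {ω : Ω} (h : ω ∉ BG A G s L J) :
    ∃ j < J, ω ∈ DD A G (s j) L := by
  induction J with
  | zero => exact absurd (mem_univ ω) h
  | succ J ih =>
    by_cases h1 : ω ∈ BG A G s L J
    · refine ⟨J, by omega, ?_⟩
      by_contra h2
      exact h ⟨h1, h2⟩
    · obtain ⟨j, hj, h2⟩ := ih h1
      exact ⟨j, by omega, h2⟩

/-- blocks with a large expected number contain an element -/
theorem fin_gen (hA : ∀ n, MeasurableSet[ℱ n] (A n)) (ρ : ℕ → ℝ) (hρ : ∀ n, 0 ≤ ρ n ∧ ρ n ≤ 1)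
    (hprof : ∀ᵐ ω ∂μ, ∀ ε : ℝ, 0 < ε → ∀ᶠ n : ℕ in atTop,
      |dens μ ℱ A n ω - ρ (n + 1)| ≤ ε * ρ (n + 1)) (L : ℕ → ℕ)
    (hsum : ∀ᶠ m : ℕ in atTop, 4 * Real.log m ≤ ∑ n ∈ Finset.Ioc m (m + L m), ρ n) :
    ∀ᵐ ω ∂μ, ∀ᶠ m : ℕ in atTop, ∃ n, m < n ∧ n ≤ m + L m ∧ ω ∈ A n := by
  obtain ⟨a, ha⟩ : ∃ a : ℕ → ℝ, a = fun n => (1 / 2) * ρ (n + 1) := ⟨_, rfl⟩
  obtain ⟨G, hG⟩ : ∃ G : ℕ → Set Ω, G = fun n => {ω | a n ≤ dens μ ℱ A n ω} := ⟨_, rfl⟩
  have hGm : ∀ n, MeasurableSet[ℱ n] (G n) := by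
    intro n
    rw [hG]
    exact (dens_meas n).measurable measurableSet_Ici
  have ha1 : ∀ n, a n ≤ 1 := by
    intro n
    rw [ha]
    have := hρ (n + 1)
    simp only
    linarith
  have hN : ∀ᶠ m : ℕ in atTop, μ.real (NN A G m (L m)) ≤ (m : ℝ) ^ (-(2 : ℝ)) := by
    filter_upwards [hsum, eventually_ge_atTop 1] with m h2 h4
    have hm0 : (0 : ℝ) < m := by exact_mod_cast h4
    refine (NN_le hA hGm (a := a) (fun n ω hω => by rw [hG] at hω; exact hω) ha1 m (L m)).trans ?_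
    refine (prod_le_exp (fun i => a (m + i)) (L m) (fun i _ => ha1 _)).trans ?_
    rw [Real.rpow_def_of_pos hm0]
    apply Real.exp_le_exp.2
    have h5 : ∑ i ∈ Finset.range (L m), a (m + i) = (1 / 2) * ∑ n ∈ Finset.Ioc m (m + L m), ρ n := by
      rw [← sum_blk, Finset.mul_sum, ha]
    rw [h5]
    linarith
  filter_upwards [bc _ _ (show (1 : ℝ) < 2 by norm_num) hN, hprof] with ω h1 h2
  have h3 := eventually_forall_ge_atTop.2 (h2 (1 / 2) (by norm_num))
  filter_upwards [h1, h3] with m h4 h5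
  by_contra hcon
  push Not at hcon
  apply h4
  intro i hi
  constructor
  · have h6 := (abs_le.1 (h5 (m + i) (by omega))).1
    rw [hG]
    show a (m + i) ≤ _
    rw [ha]
    simp only
    linarith
  · exact hcon (m + i + 1) (by omega) (by omega)

/-- one of many blocks with a small expected number is empty -/
theorem io_gen (hA : ∀ n, MeasurableSet[ℱ n] (A n)) (ρ : ℕ → ℝ) (hρ : ∀ n, 0 ≤ ρ n ∧ ρ n ≤ 1)
    (hρ0 : Tendsto ρ atTop (𝓝 0))
    (hprof : ∀ᵐ ω ∂μ, ∀ ε : ℝ, 0 < ε → ∀ᶠ n : ℕ in atTop,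
      |dens μ ℱ A n ω - ρ (n + 1)| ≤ ε * ρ (n + 1))
    (s : ℕ → ℕ → ℕ) (L J : ℕ → ℕ) (κ κ' : ℝ) (hκ0 : 0 < κ) (hκ : κ < κ')
    (hs : ∀ᶠ X : ℕ in atTop, ∀ j < J X, X ≤ s X j ∧ s X j + L X ≤ s X (j + 1))
    (hsum : ∀ᶠ X : ℕ in atTop, ∀ j < J X, ∑ n ∈ Finset.Ioc (s X j) (s X j + L X), ρ n ≤ κ * Real.log X)
    (hJ : ∀ᶠ X : ℕ in atTop, 2 * Real.log X ≤ (X : ℝ) ^ (-κ') * J X) :
    ∀ᵐ ω ∂μ, ∀ᶠ X : ℕ in atTop, ∃ j < J X, ∀ n, s X j < n → n ≤ s X j + L X → ω ∉ A n := by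
  obtain ⟨ε, hε⟩ : ∃ ε : ℝ, ε = min 1 ((κ' - κ) / (3 * κ)) := ⟨_, rfl⟩
  have hε0 : 0 < ε := by
    rw [hε]
    exact lt_min one_pos (div_pos (by linarith) (by linarith))
  have hε1 : ε ≤ 1 := by rw [hε]; exact min_le_left _ _
  have hεκ : (1 + ε) * ((1 + ε) * κ) ≤ κ' := by
    have h1 : ε * (3 * κ) ≤ κ' - κ := by
      have : ε ≤ (κ' - κ) / (3 * κ) := by rw [hε]; exact min_le_right _ _
      rwa [le_div_iff₀ (by linarith)] at this
    have h2 : (1 + ε) * (1 + ε) ≤ 1 + 3 * ε := by nlinarith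
    calc (1 + ε) * ((1 + ε) * κ) = (1 + ε) * (1 + ε) * κ := by ring
      _ ≤ (1 + 3 * ε) * κ := by gcongr
      _ = κ + ε * (3 * κ) := by ring
      _ ≤ κ' := by linarith
  obtain ⟨a, ha⟩ : ∃ a : ℕ → ℝ, a = fun n => (1 + ε) * ρ (n + 1) := ⟨_, rfl⟩
  obtain ⟨G, hG⟩ : ∃ G : ℕ → Set Ω, G = fun n => {ω | dens μ ℱ A n ω ≤ a n} := ⟨_, rfl⟩
  have hGm : ∀ n, MeasurableSet[ℱ n] (G n) := by
    intro n
    rw [hG]
    exact (dens_meas n).measurable measurableSet_Iic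
  have ha0 : ∀ n, 0 ≤ a n := by
    intro n
    rw [ha]
    have := (hρ (n + 1)).1
    positivity
  have hasmall : ∀ᶠ n : ℕ in atTop, a n ≤ ε / (1 + ε) := by
    have h1 : Tendsto a atTop (𝓝 0) := by
      have h2 := ((tendsto_add_atTop_iff_nat 1).2 hρ0).const_mul (1 + ε)
      rw [mul_zero] at h2
      rw [ha]
      exact h2
    filter_upwards [h1.eventually (gt_mem_nhds (show (0 : ℝ) < ε / (1 + ε) by positivity))] with n hn
    exact hn.le
  have hN : ∀ᶠ X : ℕ in atTop, μ.real (BG A G (s X) (L X) (J X)) ≤ (X : ℝ) ^ (-(2 : ℝ)) := by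
    filter_upwards [eventually_forall_ge_atTop.2 hasmall, hs, hsum, hJ, eventually_ge_atTop 1]
      with X h1 h2 h3 h4 h6
    have hX0 : (0 : ℝ) < X := by exact_mod_cast h6
    have hl0 : 0 ≤ Real.log (X : ℝ) := Real.log_natCast_nonneg X
    obtain ⟨q, hq⟩ : ∃ q : ℝ, q = Real.exp (-(κ' * Real.log X)) := ⟨_, rfl⟩
    have hq1 : q ≤ 1 := by
      rw [hq]
      apply Real.exp_le_one_iff.2
      have : 0 ≤ κ' * Real.log X := mul_nonneg (by linarith) hl0
      linarith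
    have e1 : ε / (1 + ε) ≤ 1 := by
      rw [div_le_one (by positivity)]
      linarith
    have hB := BG_le (μ := μ) hA hGm (a := a) (fun n ω hω => by rw [hG] at hω; exact hω) ha0 (s X) (L X) hq1 (J X)
      (fun j hj => (h2 j hj).2)
      (fun j hj => by
        have hs1 := (h2 j hj).1
        refine ⟨fun i _ => (h1 _ (by omega)).trans e1, ?_⟩
        refine le_trans ?_ (exp_le_prod ε hε0 (fun i => a (s X j + i)) (L X) (fun i _ => ha0 _)
          (fun i _ => h1 _ (by omega)))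
        rw [hq]
        apply Real.exp_le_exp.2
        have h7 : ∑ i ∈ Finset.range (L X), a (s X j + i) =
            (1 + ε) * ∑ n ∈ Finset.Ioc (s X j) (s X j + L X), ρ n := by
          rw [← sum_blk, Finset.mul_sum, ha]
        rw [h7]
        have h11 : (1 + ε) * ((1 + ε) * ∑ n ∈ Finset.Ioc (s X j) (s X j + L X), ρ n) ≤
            (1 + ε) * ((1 + ε) * (κ * Real.log X)) := by
          have := h3 j hj
          gcongr
        have h12 : (1 + ε) * ((1 + ε) * (κ * Real.log X)) ≤ κ' * Real.log X := by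
          calc (1 + ε) * ((1 + ε) * (κ * Real.log X)) = (1 + ε) * ((1 + ε) * κ) * Real.log X := by ring
            _ ≤ κ' * Real.log X := by gcongr
        linarith) (J X) le_rfl
    refine hB.trans ?_
    have h13 : (1 - q) ^ (J X) ≤ Real.exp (-(q * J X)) := by
      calc (1 - q) ^ (J X) ≤ (Real.exp (-q)) ^ (J X) := by
            apply pow_le_pow_left₀ (by linarith) (Real.one_sub_le_exp_neg q)
        _ = Real.exp (-(q * J X)) := by
            rw [← Real.exp_nat_mul]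
            congr 1
            ring
    refine h13.trans ?_
    have hq2 : q = (X : ℝ) ^ (-κ') := by
      rw [hq, Real.rpow_def_of_pos hX0]
      congr 1
      ring
    rw [Real.rpow_def_of_pos hX0 (-(2 : ℝ))]
    apply Real.exp_le_exp.2
    rw [hq2]
    linarith
  filter_upwards [bc _ _ (show (1 : ℝ) < 2 by norm_num) hN, hprof] with ω h1 h2
  have h3 := eventually_forall_ge_atTop.2 (h2 ε hε0)
  filter_upwards [h1, h3, hs] with X h4 h5 h8
  obtain ⟨j, hj, h6⟩ := not_mem_BG h4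
  refine ⟨j, hj, ?_⟩
  intro n hn1 hn2 hn3
  have hs1 := (h8 j hj).1
  have h7 := h6 (n - s X j - 1) (by omega)
  apply h7
  constructor
  · have h8 := (abs_le.1 (h5 (s X j + (n - s X j - 1)) (by omega))).2
    rw [hG]
    show _ ≤ a _
    rw [ha]
    simp only
    linarith
  · have : s X j + (n - s X j - 1) + 1 = n := by omega
    rw [this]
    exact hn3

end

end Pool.Agent.J6H15.SM
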