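import Mathlib
import Pool.Agent.J6H13.UM.Core
import Pool.Agent.J6H15.SM.As

/-! # The expected number of the chosen integers in short blocks -/

set_option autoImplicit false
set_option linter.unusedSectionVars false

open Filter
open scoped Topology

namespace Pool.Agent.J6H15.SM

open Pool.Agent.J6H13.UM

open Classical in
/-- the integers in `(M, N]` without prime factors `q ∈ P`, `q ≤ Z` -/
noncomputable def RZ (P : Set ℕ) (M N Z : ℕ) : Finset ℕ :=
  (Finset.Ioc M N).filter (fun n => ∀ q ∈ P, q.Prime → q ≤ Z → ¬ q ∣ n)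

lemma W_inv (P : Set ℕ) (Z : ℕ) (Om : ℕ → Finset ℕ) (h1 : ∀ p ∈ P, Om p = {0}) (h2 : ∀ p ∉ P, Om p = ∅) :
    (∏ p ∈ (Finset.Ioc 0 Z).filter Nat.Prime, (1 - ((Om p).card : ℝ) / p)) * W P Z = 1 := by
  classical
  have e1 : ∏ p ∈ (Finset.Ioc 0 Z).filter Nat.Prime, (1 - ((Om p).card : ℝ) / p) =
      ∏ p ∈ (Finset.Icc 1 Z).filter (fun q => q.Prime ∧ q ∈ P), (1 - (p : ℝ)⁻¹) := by
    have e2 : (Finset.Icc 1 Z).filter (fun q => q.Prime ∧ q ∈ P) =
        ((Finset.Ioc 0 Z).filter Nat.Prime).filter (fun q => q ∈ P) := by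
      ext q
      simp only [Finset.mem_filter, Finset.mem_Icc, Finset.mem_Ioc]
      constructor
      · rintro ⟨⟨a1, a2⟩, a3, a4⟩
        exact ⟨⟨⟨by omega, a2⟩, a3⟩, a4⟩
      · rintro ⟨⟨⟨a1, a2⟩, a3⟩, a4⟩
        exact ⟨⟨by omega, a2⟩, a3, a4⟩
    have e3 : ∏ p ∈ ((Finset.Ioc 0 Z).filter Nat.Prime).filter (fun q => q ∈ P), (1 - (p : ℝ)⁻¹) =
        ∏ p ∈ (Finset.Ioc 0 Z).filter Nat.Prime, if p ∈ P then (1 - (p : ℝ)⁻¹) else 1 := Finset.prod_filter _ _
    rw [e2, e3]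
    apply Finset.prod_congr rfl
    intro p _
    split_ifs with h
    · rw [h1 p h, Finset.card_singleton, Nat.cast_one, one_div]
    · rw [h2 p h, Finset.card_empty, Nat.cast_zero, zero_div, sub_zero]
  rw [e1]
  unfold W
  rw [← Finset.prod_mul_distrib]
  apply Finset.prod_eq_one
  intro p hp
  have hp' := (Finset.mem_filter.1 hp).2.1
  have hp1 : (1 : ℝ) < p := by exact_mod_cast hp'.one_lt
  have : (p : ℝ)⁻¹ < 1 := inv_lt_one_of_one_lt₀ hp1
  exact mul_inv_cancel₀ (by linarith)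

theorem rough_asym (η : ℝ) (hη : 0 < η) : ∃ (K : ℝ) (B : ℕ), 0 ≤ K ∧ ∀ (P : Set ℕ) (M N Z : ℕ), M ≤ N →
    |((RZ P M N Z).card : ℝ) * W P Z - ((N : ℝ) - M)| ≤ η * ((N : ℝ) - M) + K * ((Z : ℝ) + 1) ^ B := by
  classical
  obtain ⟨K0, hK0, H⟩ := Pool.Agent.N136.QL.t_FLC
  obtain ⟨C3, hC3, hW⟩ := W0_lin
  obtain ⟨b0, hb0⟩ := exists_pow_lt_of_lt_one hη (show (1 / 2 : ℝ) < 1 by norm_num)
  obtain ⟨b, hb⟩ : ∃ b, b = max K0 b0 := ⟨_, rfl⟩
  have hbη : (1 / 2 : ℝ) ^ b ≤ η := by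
    refine le_trans ?_ hb0.le
    exact pow_le_pow_of_le_one (by norm_num) (by norm_num) (hb ▸ le_max_right _ _)
  refine ⟨C3, K0 * b + 1, hC3.le, ?_⟩
  intro P M N Z hMN
  have hNM : (0 : ℝ) ≤ (N : ℝ) - M := by
    have : (M : ℝ) ≤ N := by exact_mod_cast hMN
    linarith
  rcases Nat.lt_or_ge Z 2 with hZ | hZ
  · have e1 : RZ P M N Z = Finset.Ioc M N := by
      unfold RZ
      apply Finset.filter_true_of_mem
      intro n _ q _ hq hqZ
      have := hq.two_le
      omega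
    have e2 : W P Z = 1 := by
      unfold W
      apply Finset.prod_eq_one
      intro q hq
      exfalso
      rw [Finset.mem_filter, Finset.mem_Icc] at hq
      have := hq.2.1.two_le
      omega
    rw [e1, e2, Nat.card_Ioc, Nat.cast_sub hMN, mul_one, sub_self, abs_zero]
    positivity
  obtain ⟨Om, hOm⟩ : ∃ Om : ℕ → Finset ℕ, Om = fun p => if p ∈ P then {0} else ∅ := ⟨_, rfl⟩
  have hOm1 : ∀ p ∈ P, Om p = {0} := by
    intro p hp
    rw [hOm]
    exact if_pos hp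
  have hOm2 : ∀ p ∉ P, Om p = ∅ := by
    intro p hp
    rw [hOm]
    exact if_neg hp
  have h1 := H b Z Om (M : ℤ) (N : ℤ) (hb ▸ le_max_left _ _) hZ
    (fun p hp _ => by
      by_cases h : p ∈ P
      · rw [hOm1 p h]
        refine ⟨?_, by rw [Finset.card_singleton]; norm_num⟩
        intro x hx
        rw [Finset.mem_singleton] at hx
        rw [Finset.mem_range, hx]
        exact hp.pos
      · rw [hOm2 p h]
        exact ⟨Finset.empty_subset _, by rw [Finset.card_empty]; norm_num⟩) (by exact_mod_cast hMN)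
  have hcard : ((Finset.Ioc (M : ℤ) (N : ℤ)).filter (fun t : ℤ => ∀ p : ℕ, p.Prime → p ≤ Z →
      (t % p).toNat ∉ Om p)).card = (RZ P M N Z).card := by
    have e1 : (Finset.Ioc (M : ℤ) (N : ℤ)).filter (fun t : ℤ => ∀ p : ℕ, p.Prime → p ≤ Z →
        (t % p).toNat ∉ Om p) = (RZ P M N Z).image (fun n : ℕ => (n : ℤ)) := by
      ext t
      rw [Finset.mem_filter, Finset.mem_Ioc, Finset.mem_image]
      have key : ∀ n p : ℕ, ((((n : ℤ) % (p : ℤ)).toNat) ∉ Om p ↔ (p ∈ P → ¬ p ∣ n)) := by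
        intro n p
        have e2 : ((n : ℤ) % (p : ℤ)).toNat = n % p := by
          rw [← Int.natCast_mod, Int.toNat_natCast]
        rw [e2]
        by_cases h : p ∈ P
        · rw [hOm1 p h, Finset.mem_singleton, Nat.dvd_iff_mod_eq_zero]
          exact ⟨fun g _ => g, fun g => g h⟩
        · rw [hOm2 p h]
          exact ⟨fun _ g => absurd g h, fun _ => Finset.notMem_empty _⟩
      constructor
      · rintro ⟨⟨h1, h2⟩, h3⟩
        obtain ⟨n, rfl⟩ : ∃ n : ℕ, t = n := ⟨t.toNat, by omega⟩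
        refine ⟨n, ?_, rfl⟩
        unfold RZ
        rw [Finset.mem_filter, Finset.mem_Ioc]
        exact ⟨⟨by omega, by omega⟩, fun q hq hqp hqZ => (key n q).1 (h3 q hqp hqZ) hq⟩
      · rintro ⟨n, hn, rfl⟩
        unfold RZ at hn
        rw [Finset.mem_filter, Finset.mem_Ioc] at hn
        exact ⟨⟨by omega, by omega⟩, fun p hp hpZ => (key n p).2 fun g => hn.2 p g hp hpZ⟩
    rw [e1]
    exact Finset.card_image_of_injective _ Nat.cast_injective
  rw [hcard] at h1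
  push_cast at h1
  have hinv := W_inv P Z Om hOm1 hOm2
  obtain ⟨V, hV⟩ : ∃ V : ℝ, V = ∏ p ∈ (Finset.Ioc 0 Z).filter Nat.Prime, (1 - ((Om p).card : ℝ) / p) := ⟨_, rfl⟩
  rw [← hV] at h1 hinv
  have hWp : 0 < W P Z := lt_of_lt_of_le one_pos (W_ge P Z)
  have hWle : W P Z ≤ C3 * ((Z : ℝ) + 1) := by
    refine (W_le P Z).trans ((hW Z (by omega)).trans ?_)
    gcongr
    linarith
  calc |((RZ P M N Z).card : ℝ) * W P Z - ((N : ℝ) - M)|
      = |((RZ P M N Z).card : ℝ) - ((N : ℝ) - M) * V| * W P Z := by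
        rw [← abs_of_pos hWp, ← abs_mul, abs_of_pos hWp]
        congr 1
        rw [sub_mul, mul_assoc, hinv, mul_one]
    _ ≤ ((1 / 2) ^ b * (((N : ℝ) - M) * V) + (Z : ℝ) ^ (K0 * b)) * W P Z := by gcongr
    _ = (1 / 2) ^ b * ((N : ℝ) - M) + (Z : ℝ) ^ (K0 * b) * W P Z := by
        rw [add_mul, mul_assoc, mul_assoc, hinv, mul_one]
    _ ≤ η * ((N : ℝ) - M) + (((Z : ℝ) + 1) ^ (K0 * b)) * (C3 * ((Z : ℝ) + 1)) := by
        gcongr
        linarith
    _ = η * ((N : ℝ) - M) + C3 * ((Z : ℝ) + 1) ^ (K0 * b + 1) := by ring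

/-- the arguments with a given value of a monotone function -/
lemma mono_fibre (z : ℕ → ℕ) (hz : Monotone z) (m M v : ℕ) :
    ∃ a b : ℕ, a ≤ b ∧ (Finset.Ioc m M).filter (fun n => z n = v) = Finset.Ioc a b := by
  rcases ((Finset.Ioc m M).filter (fun n => z n = v)).eq_empty_or_nonempty with h | h
  · exact ⟨0, 0, le_rfl, by rw [h, Finset.Ioc_self]⟩
  · obtain ⟨I, hI⟩ : ∃ I, I = (Finset.Ioc m M).filter (fun n => z n = v) := ⟨_, rfl⟩
    rw [← hI] at h ⊢
    have h1 := I.min'_mem h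
    have h2 := I.max'_mem h
    obtain ⟨a, ha⟩ : ∃ a, a = I.min' h := ⟨_, rfl⟩
    obtain ⟨b, hb⟩ : ∃ b, b = I.max' h := ⟨_, rfl⟩
    rw [← ha] at h1
    rw [← hb] at h2
    have h3 : ∀ x ∈ I, a ≤ x ∧ x ≤ b := fun x hx => ⟨ha ▸ I.min'_le x hx, hb ▸ I.le_max' x hx⟩
    have g1 := h1
    have g2 := h2
    rw [hI, Finset.mem_filter, Finset.mem_Ioc] at g1 g2
    have h4 := (h3 b h2).1
    refine ⟨a - 1, b, by omega, ?_⟩
    ext n
    constructor
    · intro hn
      have := h3 n hn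
      rw [Finset.mem_Ioc]
      omega
    · intro hn
      rw [Finset.mem_Ioc] at hn
      rw [hI, Finset.mem_filter, Finset.mem_Ioc]
      have g3 := hz (show a ≤ n by omega)
      have g4 := hz hn.2
      omega

open Classical in
/-- the weight of `n` -/
noncomputable def wt (P : Set ℕ) (z : ℕ → ℕ) (n : ℕ) : ℝ := if Rough P z n then W P (z n) else 0

theorem block_sum (η : ℝ) (hη : 0 < η) : ∃ (K : ℝ) (B : ℕ), 0 ≤ K ∧ ∀ (P : Set ℕ) (z : ℕ → ℕ), Monotone z →
    ∀ m L : ℕ, |∑ n ∈ Finset.Ioc m (m + L), wt P z n - L| ≤ η * L + K * ((z (m + L) : ℝ) + 1) ^ B := by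
  classical
  obtain ⟨K, B, hK, H⟩ := rough_asym η hη
  refine ⟨K, B + 1, hK, ?_⟩
  intro P z hz m L
  obtain ⟨Z, hZ⟩ : ∃ Z, Z = z (m + L) := ⟨_, rfl⟩
  rw [← hZ]
  have hmaps : ∀ n ∈ Finset.Ioc m (m + L), z n ∈ Finset.range (Z + 1) := by
    intro n hn
    rw [Finset.mem_Ioc] at hn
    rw [Finset.mem_range, hZ]
    have := hz hn.2
    omega
  have h1 : ∑ n ∈ Finset.Ioc m (m + L), wt P z n =
      ∑ v ∈ Finset.range (Z + 1), ∑ n ∈ (Finset.Ioc m (m + L)).filter (fun n => z n = v), wt P z n :=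
    (Finset.sum_fiberwise_of_maps_to hmaps _).symm
  have h2 : (L : ℝ) = ∑ v ∈ Finset.range (Z + 1), (((Finset.Ioc m (m + L)).filter (fun n => z n = v)).card : ℝ) := by
    have := Finset.card_eq_sum_card_fiberwise hmaps
    rw [Nat.card_Ioc, Nat.add_sub_cancel_left] at this
    exact_mod_cast this
  have h3 : ∀ v ∈ Finset.range (Z + 1), |∑ n ∈ (Finset.Ioc m (m + L)).filter (fun n => z n = v), wt P z n -
      (((Finset.Ioc m (m + L)).filter (fun n => z n = v)).card : ℝ)| ≤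
      η * (((Finset.Ioc m (m + L)).filter (fun n => z n = v)).card : ℝ) + K * ((Z : ℝ) + 1) ^ B := by
    intro v hv
    rw [Finset.mem_range] at hv
    obtain ⟨a, b, hab, he⟩ := mono_fibre z hz m (m + L) v
    have e1 : ∑ n ∈ (Finset.Ioc m (m + L)).filter (fun n => z n = v), wt P z n =
        ((RZ P a b v).card : ℝ) * W P v := by
      have e2 : ∀ n ∈ (Finset.Ioc m (m + L)).filter (fun n => z n = v), wt P z n =
          if (∀ q ∈ P, q.Prime → q ≤ v → ¬ q ∣ n) then W P v else 0 := by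
        intro n hn
        have h4 := (Finset.mem_filter.1 hn).2
        unfold wt Rough
        rw [h4]
      rw [Finset.sum_congr rfl e2, he]
      unfold RZ
      rw [Finset.card_filter, Nat.cast_sum, Finset.sum_mul]
      apply Finset.sum_congr rfl
      intro n _
      split_ifs <;> simp
    have e3 : (((Finset.Ioc m (m + L)).filter (fun n => z n = v)).card : ℝ) = (b : ℝ) - a := by
      rw [he, Nat.card_Ioc, Nat.cast_sub hab]
    rw [e1, e3]
    refine (H P a b v hab).trans ?_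
    have : (v : ℝ) ≤ Z := by exact_mod_cast (by omega : v ≤ Z)
    gcongr
  rw [h1]
  have h4 : |∑ v ∈ Finset.range (Z + 1), ∑ n ∈ (Finset.Ioc m (m + L)).filter (fun n => z n = v), wt P z n - L| ≤
      ∑ v ∈ Finset.range (Z + 1), (η * (((Finset.Ioc m (m + L)).filter (fun n => z n = v)).card : ℝ) +
        K * ((Z : ℝ) + 1) ^ B) := by
    rw [h2, ← Finset.sum_sub_distrib]
    exact (Finset.abs_sum_le_sum_abs _ _).trans (Finset.sum_le_sum h3)
  refine h4.trans (le_of_eq ?_)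
  rw [Finset.sum_add_distrib, ← Finset.mul_sum, ← h2, Finset.sum_const, Finset.card_range, nsmul_eq_mul]
  push_cast
  ring

end Pool.Agent.J6H15.SM
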