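import Mathlib
import Pool.Agent.K3h31.LP.Sieve
import Pool.Agent.J6H15.SM.Sieve

/-! # Integers without small prime factors in intervals: lower bounds from the linear sieve -/

set_option autoImplicit false
set_option linter.unusedSectionVars false

open Filter Finset
open scoped Topology

namespace Pool.Agent.J6H15.SM

open Pool.Agent.J6H13.UM
open Pool.Agent.W23.DC
open Pool.Agent.Y882
open Pool.Agent.Y882.KW

lemma dvd_count (M N d : ℕ) (hMN : M ≤ N) (hd : 0 < d) :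
    |(((Ioc M N).filter (fun j => d ∣ j)).card : ℝ) - ((N : ℝ) - M) * (1 / d)| ≤ 1 := by
  have h1 : ((Ioc M N).filter (fun j => d ∣ j)).card + M / d = N / d := by
    rw [← Nat.Ioc_filter_dvd_card_eq_div M d, ← Nat.Ioc_filter_dvd_card_eq_div N d, ← card_union_of_disjoint]
    · congr 1
      ext j
      simp only [mem_union, mem_filter, mem_Ioc]
      constructor
      · rintro (h | h)
        · exact ⟨⟨by omega, h.1.2⟩, h.2⟩
        · exact ⟨⟨h.1.1, by omega⟩, h.2⟩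
      · rintro ⟨h, h2⟩
        by_cases h3 : j ≤ M
        · exact Or.inr ⟨⟨h.1, h3⟩, h2⟩
        · exact Or.inl ⟨⟨by omega, h.2⟩, h2⟩
    · rw [disjoint_left]
      intro j hj hj2
      rw [mem_filter, mem_Ioc] at hj hj2
      omega
  have hd0 : (0 : ℝ) < d := by exact_mod_cast hd
  have h2 : (((Ioc M N).filter (fun j => d ∣ j)).card : ℝ) + ((M / d : ℕ) : ℝ) = ((N / d : ℕ) : ℝ) := by
    exact_mod_cast h1
  have h3 : ((M / d : ℕ) : ℝ) ≤ (M : ℝ) / d := Nat.cast_div_le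
  have h4 : (M : ℝ) / d < ((M / d : ℕ) : ℝ) + 1 := by
    rw [div_lt_iff₀ hd0]
    have := Nat.lt_div_mul_add (a := M) hd
    have h5 : M < (M / d + 1) * d := by
      rw [add_mul, one_mul]
      exact this
    exact_mod_cast h5
  have h5 : ((N / d : ℕ) : ℝ) ≤ (N : ℝ) / d := Nat.cast_div_le
  have h6 : (N : ℝ) / d < ((N / d : ℕ) : ℝ) + 1 := by
    rw [div_lt_iff₀ hd0]
    have := Nat.lt_div_mul_add (a := N) hd
    have h5 : N < (N / d + 1) * d := by
      rw [add_mul, one_mul]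
      exact this
    exact_mod_cast h5
  have h7 : ((N : ℝ) - M) * (1 / d) = (N : ℝ) / d - (M : ℝ) / d := by ring
  rw [h7, abs_le]
  constructor <;> linarith

/-- the linear sieve in intervals -/
theorem lin_low (ζ : ℝ) (hζ0 : 0 < ζ) (hζ : ζ < 1 / 2) : ∃ δ τ' : ℝ, 0 < δ ∧ 0 < τ' ∧ τ' < 1 ∧
    ∃ Y0 : ℕ, ∀ Y : ℕ, Y0 ≤ Y → ∀ (P : Set ℕ) (M N Z : ℕ), M ≤ N → (Z : ℝ) < (Y : ℝ) ^ ζ →
      δ * ((N : ℝ) - M) / Real.log Y - 5 * Real.log Y * (Y : ℝ) ^ τ' ≤ ((RZ P M N Z).card : ℝ) := by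
  classical
  obtain ⟨τ, hτdef⟩ : ∃ τ : ℝ, τ = min (3 * ζ) ((2 * ζ + 1) / 2) := ⟨_, rfl⟩
  have hτ1 : 2 * ζ < τ := by
    rw [hτdef]
    exact lt_min (by linarith) (by linarith)
  have hτ2 : τ < 1 := by
    rw [hτdef]
    exact (min_le_right _ _).trans_lt (by linarith)
  have hτ3 : τ ≤ 3 * ζ := by
    rw [hτdef]
    exact min_le_left _ _
  have hJ0 : ∫ x in ζ..ζ, ((1 : ℝ) - 1 / ζ * x) / (τ - x) / x < Real.log (τ / ζ - 1) / τ := by
    rw [intervalIntegral.integral_same]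
    apply div_pos _ (by linarith)
    apply Real.log_pos
    have : 2 < τ / ζ := by rwa [lt_div_iff₀ hζ0]
    linarith
  obtain ⟨δ, hδ, Y1, H⟩ := Pool.Agent.K3h31.LP.lower τ ζ ζ 1 ((τ + 1) / 2) hζ0 hτ1 (by linarith) hτ2.le le_rfl
    (by linarith) one_pos hJ0 (by linarith)
  refine ⟨δ, (τ + 1) / 2, hδ, by linarith, by linarith, max Y1 3, ?_⟩
  intro Y hY P M N Z hMN hZ
  have hY3 : 3 ≤ Y := (le_max_right _ _).trans hY
  have hY3r : (3 : ℝ) ≤ Y := by exact_mod_cast hY3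
  obtain ⟨c, hcL, hcD, hcV⟩ := H Y ((le_max_left _ _).trans hY)
  have hlY : 0 < Real.log Y := Real.log_pos (by linarith)
  have hmain := hcV (fun p => 1 / (p : ℝ)) (Or.inr (by norm_num)) (fun p _ _ => rfl) (Ioc M N) (fun j => j)
  have hcard : ((Ioc M N).card : ℝ) = (N : ℝ) - M := by
    rw [Nat.card_Ioc, Nat.cast_sub hMN]
  rw [hcard] at hmain
  have hPZp : ∀ p ∈ PZ Y ζ, p.Prime := by
    intro p hp
    unfold PZ at hp
    rw [mem_filter] at hp
    exact hp.2.1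
  -- the upper bound for the sum of the remainders
  have hrem : |∑ T ∈ (PZ Y ζ).powerset, c T *
      ((((Ioc M N).filter (fun j => ∏ p ∈ T, p ∣ j)).card : ℝ) - ((N : ℝ) - M) * ∏ p ∈ T, 1 / (p : ℝ))| ≤
      5 * Real.log Y * (Y : ℝ) ^ ((τ + 1) / 2) := by
    have h1 : ∀ T ∈ (PZ Y ζ).powerset, |c T *
        ((((Ioc M N).filter (fun j => ∏ p ∈ T, p ∣ j)).card : ℝ) - ((N : ℝ) - M) * ∏ p ∈ T, 1 / (p : ℝ))| ≤
        if c T ≠ 0 then 5 * Real.log Y else 0 := by
      intro T hT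
      rw [mem_powerset] at hT
      split_ifs with h2
      · have h3 : 0 < ∏ p ∈ T, p := prod_pos fun p hp => (hPZp p (hT hp)).pos
        have h4 := dvd_count M N (∏ p ∈ T, p) hMN h3
        have h5 : ∏ p ∈ T, 1 / (p : ℝ) = 1 / ((∏ p ∈ T, p : ℕ) : ℝ) := by
          rw [prod_div_distrib, prod_const_one]
          push_cast
          rfl
        rw [abs_mul, h5]
        calc |c T| * _ ≤ (5 * Real.log Y) * 1 := mul_le_mul (hcL T) h4 (abs_nonneg _) (by positivity)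
          _ = _ := mul_one _
      · push Not at h2
        rw [h2, zero_mul, abs_zero]
    refine (abs_sum_le_sum_abs _ _).trans ((sum_le_sum h1).trans ?_)
    rw [← sum_filter, sum_const, nsmul_eq_mul, mul_comm]
    have h2 : (((PZ Y ζ).powerset.filter (fun T => c T ≠ 0)).card : ℝ) ≤ (Y : ℝ) ^ ((τ + 1) / 2) := by
      have h3 : ((PZ Y ζ).powerset.filter (fun T => c T ≠ 0)).card ≤
          (Icc 1 ⌊(Y : ℝ) ^ ((τ + 1) / 2)⌋₊).card := by
        apply card_le_card_of_injOn (fun T => ∏ p ∈ T, p)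
        · intro T hT
          have hT' := mem_filter.1 (mem_coe.1 hT)
          obtain ⟨h4, h5⟩ := hT'
          rw [mem_powerset] at h4
          have h6 := hcD T h4 h5
          rw [mem_coe, mem_Icc]
          exact ⟨prod_pos fun p hp => (hPZp p (h4 hp)).pos, Nat.le_floor h6⟩
        · intro T hT T' hT' he
          have h4 := mem_powerset.1 (mem_filter.1 (mem_coe.1 hT)).1
          have h5 := mem_powerset.1 (mem_filter.1 (mem_coe.1 hT')).1
          have h6 := Nat.primeFactors_prod (s := T) (fun p hp => hPZp p (h4 hp))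
          have h7 := Nat.primeFactors_prod (s := T') (fun p hp => hPZp p (h5 hp))
          rw [← h6, ← h7]
          exact congrArg Nat.primeFactors he
      rw [Nat.card_Icc, Nat.add_sub_cancel] at h3
      calc (((PZ Y ζ).powerset.filter (fun T => c T ≠ 0)).card : ℝ) ≤ (⌊(Y : ℝ) ^ ((τ + 1) / 2)⌋₊ : ℝ) := by
            exact_mod_cast h3
        _ ≤ _ := Nat.floor_le (by positivity)
    exact mul_le_mul_of_nonneg_left h2 (by positivity)
  have hsub : ((Ioc M N).filter (fun j => 0 < WW Y ζ ζ 1 (1 / ζ) j)) ⊆ RZ P M N Z := by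
    intro j hj
    rw [mem_filter] at hj
    unfold RZ
    rw [mem_filter]
    refine ⟨hj.1, ?_⟩
    intro q _ hq hqZ hqj
    have h1 : ∀ p ∈ PZ Y ζ, ¬ p ∣ j := by
      by_contra hcon
      have h2 := hj.2
      unfold WW at h2
      rw [if_neg hcon, zero_mul] at h2
      exact lt_irrefl _ h2
    refine h1 q ?_ hqj
    have h2 : (q : ℝ) < (Y : ℝ) ^ ζ := lt_of_le_of_lt (by exact_mod_cast hqZ) hZ
    unfold PZ
    rw [mem_filter, mem_Icc]
    refine ⟨⟨hq.one_le, ?_⟩, hq, (tt_lt Y q ζ (by omega) hq.pos).2 h2⟩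
    have h3 : (Y : ℝ) ^ ζ ≤ (Y : ℝ) ^ (1 : ℝ) := Real.rpow_le_rpow_of_exponent_le (by linarith) (by linarith)
    rw [Real.rpow_one] at h3
    exact_mod_cast (h2.le.trans h3)
  have hc2 : (((Ioc M N).filter (fun j => 0 < WW Y ζ ζ 1 (1 / ζ) j)).card : ℝ) ≤ ((RZ P M N Z).card : ℝ) := by
    exact_mod_cast card_le_card hsub
  have h3 := (abs_le.1 hrem).1
  linarith

end Pool.Agent.J6H15.SM
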