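import Mathlib
import Pool.Agent.J6H15.SM.As

/-! # The first occurrence of a run of absent integers -/

set_option autoImplicit false
set_option linter.unusedSectionVars false

open MeasureTheory Filter Set
open scoped ENNReal Topology

namespace Pool.Agent.J6H15.SM

/-- the first element of `S` which is preceded by at least `g` consecutive integers outside `S`, these being preceded by
an element of `S` -/
noncomputable def First (S : Set ℕ) (g : ℕ) : ℕ :=
  sInf {m : ℕ | m ∈ S ∧ ∃ l ∈ S, l + g < m ∧ ∀ n, l < n → n < m → n ∉ S}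

theorem det_up (S : Set ℕ) (b : ℝ) (hb : 1 < b)
    (hU : ∀ᶠ X : ℕ in atTop, ∃ s, X ≤ s ∧ s ≤ 2 * X ∧ ∀ n, s < n → n ≤ s + blk ((1 / b) ^ 2) X → n ∉ S)
    (hL : ∀ᶠ m : ℕ in atTop, ∃ n, m < n ∧ n ≤ m + blk 2 m ∧ n ∈ S) :
    ∀ᶠ g : ℕ in atTop, First S g ∈ {m : ℕ | m ∈ S ∧ ∃ l ∈ S, l + g < m ∧ ∀ n, l < n → n < m → n ∉ S} ∧
      Real.log (First S g) ≤ Real.log 8 + b * √(g + 1) := by
  classical
  obtain ⟨e0, he0⟩ : ∃ e0, e0 ∈ S := by
    obtain ⟨m, n, -, -, h⟩ := hL.exists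
    exact ⟨n, h⟩
  have hlog2 : ∀ᶠ X : ℕ in atTop, 2 * Real.log X ^ 2 ≤ X := by
    have h1 := (isLittleO_log_rpow_rpow_atTop (2 : ℝ) (show (0 : ℝ) < 1 by norm_num)).bound
      (show (0 : ℝ) < 1 / 2 by norm_num)
    filter_upwards [tendsto_natCast_atTop_atTop.eventually h1, logN'.eventually_ge_atTop 1,
      eventually_ge_atTop 1] with X h2 h3 h4
    rw [Real.norm_eq_abs, Real.norm_eq_abs, abs_of_nonneg (Real.rpow_nonneg (by linarith) _),
      abs_of_nonneg (Real.rpow_nonneg (Nat.cast_nonneg X) _), show (2 : ℝ) = ((2 : ℕ) : ℝ) by norm_num,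
      Real.rpow_natCast, Real.rpow_one] at h2
    linarith
  have hsq : Tendsto (fun g : ℕ => b * √((g : ℝ) + 1)) atTop atTop := by
    apply Tendsto.const_mul_atTop (by linarith)
    apply Real.tendsto_sqrt_atTop.comp
    exact tendsto_atTop_add_const_right _ _ tendsto_natCast_atTop_atTop
  have hXt : Tendsto (fun g : ℕ => ⌈Real.exp (b * √((g : ℝ) + 1))⌉₊) atTop atTop :=
    tendsto_nat_ceil_atTop.comp (Real.tendsto_exp_atTop.comp hsq)
  filter_upwards [hXt.eventually hU, hXt.eventually (eventually_forall_ge_atTop.2 hL),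
    hXt.eventually (eventually_forall_ge_atTop.2 hlog2), hXt.eventually_ge_atTop e0, hXt.eventually_ge_atTop 1]
    with g h1 h2 h3 h4 h5
  obtain ⟨X, hX⟩ : ∃ X, X = ⌈Real.exp (b * √((g : ℝ) + 1))⌉₊ := ⟨_, rfl⟩
  rw [← hX] at h1 h2 h3 h4 h5
  obtain ⟨s, hs1, hs2, hs3⟩ := h1
  have hb0 : 0 < b := by linarith
  have hs0 : (0 : ℝ) < s := by exact_mod_cast (by omega : 0 < s)
  have hX0 : (0 : ℝ) < X := by exact_mod_cast (by omega : 0 < X)
  have hg1 : (0 : ℝ) ≤ (g : ℝ) + 1 := by positivity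
  -- the length of the block
  have hblk : g + 1 ≤ blk ((1 / b) ^ 2) X := by
    unfold blk
    apply Nat.le_floor
    have g1 : b * √((g : ℝ) + 1) ≤ Real.log X := by
      rw [Real.le_log_iff_exp_le hX0, hX]
      exact Nat.le_ceil _
    push_cast
    calc (g : ℝ) + 1 = (1 / b) ^ 2 * (b * √((g : ℝ) + 1)) ^ 2 := by
          rw [mul_pow, Real.sq_sqrt hg1]
          field_simp
      _ ≤ (1 / b) ^ 2 * Real.log X ^ 2 := by gcongr
  -- the next element
  obtain ⟨n0, hn1, hn2, hn3⟩ := h2 s hs1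
  have hex : ∃ n, s < n ∧ n ∈ S := ⟨n0, hn1, hn3⟩
  obtain ⟨m, hm⟩ : ∃ m, m = Nat.find hex := ⟨_, rfl⟩
  have hm1 : s < m ∧ m ∈ S := hm ▸ Nat.find_spec hex
  have hm2 : ∀ n, s < n → n < m → n ∉ S := by
    intro n g1 g2 g3
    rw [hm] at g2
    exact Nat.find_min hex g2 ⟨g1, g3⟩
  have hmn : m ≤ n0 := hm ▸ Nat.find_min' hex ⟨hn1, hn3⟩
  have hsg : s + g + 1 < m := by
    by_contra hcon
    exact hs3 m hm1.1 (by omega) hm1.2
  -- the preceding element
  have hl : ∃ l ∈ S, l ≤ s ∧ ∀ n, l < n → n ≤ s → n ∉ S := by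
    have hne : ((Finset.range (s + 1)).filter (fun n => n ∈ S)).Nonempty :=
      ⟨e0, Finset.mem_filter.2 ⟨Finset.mem_range.2 (by omega), he0⟩⟩
    obtain ⟨l, hl1, hl2⟩ := Finset.exists_max_image _ (fun n : ℕ => n) hne
    rw [Finset.mem_filter, Finset.mem_range] at hl1
    refine ⟨l, hl1.2, by omega, fun n g1 g2 g3 => ?_⟩
    have := hl2 n (Finset.mem_filter.2 ⟨Finset.mem_range.2 (by omega), g3⟩)
    omega
  obtain ⟨l, hlS, hls, hl3⟩ := hl
  have hmem : m ∈ {m : ℕ | m ∈ S ∧ ∃ l ∈ S, l + g < m ∧ ∀ n, l < n → n < m → n ∉ S} := by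
    refine ⟨hm1.2, l, hlS, by omega, fun n g1 g2 => ?_⟩
    rcases Nat.lt_or_ge s n with g3 | g3
    · exact hm2 n g3 g2
    · exact hl3 n g1 g3
  have hFm : First S g ∈ {m : ℕ | m ∈ S ∧ ∃ l ∈ S, l + g < m ∧ ∀ n, l < n → n < m → n ∉ S} :=
    Nat.sInf_mem ⟨m, hmem⟩
  refine ⟨hFm, ?_⟩
  have hFle : First S g ≤ m := Nat.sInf_le hmem
  have hF0 : 0 < First S g := by
    obtain ⟨-, l', -, g1, -⟩ := hFm
    omega
  have hm4 : m ≤ 4 * X := by
    have g1 : (blk 2 s : ℝ) ≤ s := by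
      have : (blk 2 s : ℝ) ≤ 2 * Real.log s ^ 2 := by
        unfold blk
        exact Nat.floor_le (by positivity)
      exact this.trans (h3 s hs1)
    have g2 : blk 2 s ≤ s := by exact_mod_cast g1
    omega
  have hexp1 : 1 ≤ Real.exp (b * √((g : ℝ) + 1)) := Real.one_le_exp (by positivity)
  have hXle : (X : ℝ) ≤ 2 * Real.exp (b * √((g : ℝ) + 1)) := by
    have := (Nat.ceil_lt_add_one (Real.exp_pos (b * √((g : ℝ) + 1))).le).le
    rw [← hX] at this
    linarith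
  have hF8 : ((First S g : ℕ) : ℝ) ≤ 8 * Real.exp (b * √((g : ℝ) + 1)) := by
    have g1 : ((First S g : ℕ) : ℝ) ≤ 4 * X := by exact_mod_cast hFle.trans hm4
    linarith
  have hF0' : (0 : ℝ) < ((First S g : ℕ) : ℝ) := by exact_mod_cast hF0
  have := Real.log_le_log hF0' hF8
  rwa [Real.log_mul (by norm_num) (Real.exp_pos _).ne', Real.log_exp] at this

theorem det_low (S : Set ℕ) (c : ℝ) (hc : 0 < c)
    (hL : ∀ᶠ m : ℕ in atTop, ∃ n, m < n ∧ n ≤ m + blk c m ∧ n ∈ S)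
    (hF : ∀ᶠ g : ℕ in atTop, First S g ∈ {m : ℕ | m ∈ S ∧ ∃ l ∈ S, l + g < m ∧ ∀ n, l < n → n < m → n ∉ S}) :
    ∀ᶠ g : ℕ in atTop, √(g : ℝ) ≤ √c * Real.log (First S g) := by
  obtain ⟨m1, hm1⟩ := eventually_atTop.1 hL
  obtain ⟨n0, hn1, hn2, hn3⟩ := hm1 m1 le_rfl
  filter_upwards [hF, eventually_ge_atTop n0, eventually_ge_atTop 1] with g h1 h2 h3
  obtain ⟨hmS, l, hlS, hlg, hlm⟩ := h1
  rcases Nat.lt_or_ge l m1 with h4 | h4
  · exfalso
    exact hlm n0 (by omega) (by omega) hn3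
  · obtain ⟨n, g1, g2, g3⟩ := hm1 l h4
    have h5 : First S g ≤ n := by
      by_contra hcon
      exact hlm n g1 (by omega) g3
    have h6 : g < blk c l := by omega
    have h7 : (g : ℝ) ≤ c * Real.log l ^ 2 := by
      have g4 : (blk c l : ℝ) ≤ c * Real.log l ^ 2 := by
        unfold blk
        exact Nat.floor_le (by positivity)
      have g5 : (g : ℝ) ≤ blk c l := by exact_mod_cast h6.le
      linarith
    have hl0 : 0 < l := by
      by_contra hcon
      have : l = 0 := by omega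
      rw [this] at h6
      unfold blk at h6
      simp at h6
    have hll : Real.log l ≤ Real.log (First S g) := by
      apply Real.log_le_log (by exact_mod_cast hl0)
      exact_mod_cast (by omega : l ≤ First S g)
    have hl0' : 0 ≤ Real.log (l : ℝ) := Real.log_natCast_nonneg l
    have h8 : (g : ℝ) ≤ c * Real.log (First S g) ^ 2 := by
      refine h7.trans ?_
      gcongr
    calc √(g : ℝ) ≤ √(c * Real.log (First S g) ^ 2) := Real.sqrt_le_sqrt h8
      _ = √c * Real.log (First S g) := by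
        rw [Real.sqrt_mul hc.le, Real.sqrt_sq (hl0'.trans hll)]

theorem det (S : Set ℕ)
    (hU : ∀ c : ℝ, 0 < c → c < 1 → ∀ᶠ X : ℕ in atTop, ∃ s, X ≤ s ∧ s ≤ 2 * X ∧ ∀ n, s < n → n ≤ s + blk c X → n ∉ S)
    (hL : ∀ c : ℝ, 1 < c → ∀ᶠ m : ℕ in atTop, ∃ n, m < n ∧ n ≤ m + blk c m ∧ n ∈ S) :
    Tendsto (fun g : ℕ => Real.log (First S g) / √(g : ℝ)) atTop (𝓝 1) := by
  have hup : ∀ b : ℝ, 1 < b → ∀ᶠ g : ℕ in atTop,
      First S g ∈ {m : ℕ | m ∈ S ∧ ∃ l ∈ S, l + g < m ∧ ∀ n, l < n → n < m → n ∉ S} ∧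
      Real.log (First S g) ≤ Real.log 8 + b * √(g + 1) := by
    intro b hb
    refine det_up S b hb (hU _ (by positivity) ?_) (hL 2 (by norm_num))
    have h1 : 1 / b < 1 := by rw [div_lt_one (by linarith)]; exact hb
    have h2 : 0 < 1 / b := by positivity
    nlinarith
  have hF := (hup 2 (by norm_num)).mono fun g h => h.1
  have hs : Tendsto (fun g : ℕ => √(g : ℝ)) atTop atTop :=
    Real.tendsto_sqrt_atTop.comp tendsto_natCast_atTop_atTop
  rw [tendsto_order]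
  constructor
  · intro a ha
    obtain ⟨b, hb⟩ : ∃ b : ℝ, b = (1 + max a 0) / 2 := ⟨_, rfl⟩
    have hmax : max a 0 < 1 := max_lt ha one_pos
    have hb0 : 0 < b := by
      rw [hb]
      have := le_max_right a 0
      linarith
    have hb1 : b < 1 := by rw [hb]; linarith
    have hab : a < b := by
      rw [hb]
      have := le_max_left a 0
      linarith
    have hc : 1 < (1 / b) ^ 2 := by
      have h1 : 1 < 1 / b := by rw [lt_div_iff₀ hb0]; linarith
      nlinarith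
    filter_upwards [det_low S _ (by positivity) (hL _ hc) hF, hs.eventually_gt_atTop 0] with g h1 h2
    rw [Real.sqrt_sq (by positivity)] at h1
    refine lt_of_lt_of_le hab ?_
    rw [le_div_iff₀ h2]
    calc b * √(g : ℝ) ≤ b * (1 / b * Real.log (First S g)) := by gcongr
      _ = Real.log (First S g) := by field_simp
  · intro a ha
    obtain ⟨b, hb⟩ : ∃ b : ℝ, b = (1 + a) / 2 := ⟨_, rfl⟩
    have hb1 : 1 < b := by rw [hb]; linarith
    have hba : b < a := by rw [hb]; linarith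
    filter_upwards [hup b hb1, hs.eventually_gt_atTop ((Real.log 8 + b) / (a - b)), hs.eventually_gt_atTop 0]
      with g h1 h2 h3
    rw [div_lt_iff₀ (by linarith)] at h2
    rw [div_lt_iff₀ h3]
    have h4 : √((g : ℝ) + 1) ≤ √(g : ℝ) + 1 := by
      rw [Real.sqrt_le_left (by positivity)]
      have := Real.sq_sqrt (Nat.cast_nonneg (α := ℝ) g)
      nlinarith
    have h5 := h1.2
    nlinarith

end Pool.Agent.J6H15.SM
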