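import Mathlib
import Pool.Agent.J6H15.SM.Sieve
import Pool.Agent.J6H15.SM.Fin

/-! # The first runs of absent integers in sequential random models -/

set_option autoImplicit false
set_option linter.unusedSectionVars false

open Filter MeasureTheory
open scoped Topology

namespace Pool.Agent.J6H15.SM

open Pool.Agent.J6H13.UM
open Pool.Agent.R528.RM

lemma blk_le (c : ℝ) (hc : 0 < c) : ∀ᶠ m : ℕ in atTop, blk c m ≤ m := by
  have h1 := (isLittleO_log_rpow_rpow_atTop (2 : ℝ) (show (0 : ℝ) < 1 by norm_num)).bound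
    (show (0 : ℝ) < 1 / c by positivity)
  filter_upwards [tendsto_natCast_atTop_atTop.eventually h1, logN'.eventually_ge_atTop 1,
    eventually_ge_atTop 1] with X h2 h3 h4
  rw [Real.norm_eq_abs, Real.norm_eq_abs, abs_of_nonneg (Real.rpow_nonneg (by linarith) _),
    abs_of_nonneg (Real.rpow_nonneg (Nat.cast_nonneg X) _), show (2 : ℝ) = ((2 : ℕ) : ℝ) by norm_num,
    Real.rpow_natCast, Real.rpow_one] at h2
  have h5 : c * Real.log X ^ 2 ≤ X := by
    calc c * Real.log X ^ 2 ≤ c * (1 / c * X) := by gcongr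
      _ = X := by field_simp
  have h6 : (blk c X : ℝ) ≤ X := by
    unfold blk
    exact (Nat.floor_le (by positivity)).trans h5
  exact_mod_cast h6

lemma z_pow (z : ℕ → ℕ) (hz : ∀ δ : ℝ, 0 < δ → ∀ᶠ n : ℕ in atTop, (z n : ℝ) ≤ Real.log n ^ δ) (c : ℝ) (hc : 0 < c)
    (B : ℕ) : ∀ᶠ m : ℕ in atTop, ((z (m + blk c m) : ℝ) + 1) ^ B ≤ Real.log m := by
  obtain ⟨δ, hδ⟩ : ∃ δ : ℝ, δ = 1 / (2 * ((B : ℝ) + 1)) := ⟨_, rfl⟩
  have hδ0 : 0 < δ := by rw [hδ]; positivity
  have hδB : δ * B ≤ 1 / 2 := by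
    rw [hδ, div_mul_eq_mul_div, div_le_div_iff₀ (by positivity) (by norm_num)]
    linarith
  filter_upwards [eventually_forall_ge_atTop.2 (hz δ hδ0), blk_le c hc,
    logN'.eventually_ge_atTop (2 * 4 ^ B), eventually_ge_atTop 2] with m h1 h2 h3 h4
  have hm2 : (2 : ℝ) ≤ m := by exact_mod_cast h4
  have h5 := h1 (m + blk c m) (Nat.le_add_right _ _)
  have hl : Real.log ((m + blk c m : ℕ) : ℝ) ≤ 2 * Real.log m := by
    have g1 : ((m + blk c m : ℕ) : ℝ) ≤ (m : ℝ) ^ 2 := by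
      have g2 : ((m + blk c m : ℕ) : ℝ) ≤ 2 * m := by
        have : m + blk c m ≤ 2 * m := by omega
        exact_mod_cast this
      nlinarith
    have g2 := Real.log_le_log (by push_cast; positivity) g1
    rwa [Real.log_pow] at g2
  have h4B : (1 : ℝ) ≤ 4 ^ B := one_le_pow₀ (by norm_num)
  have hl1 : 1 ≤ 2 * Real.log m := by linarith
  have hl0 : 0 ≤ Real.log ((m + blk c m : ℕ) : ℝ) := Real.log_natCast_nonneg _
  have h6 : (z (m + blk c m) : ℝ) + 1 ≤ 2 * (2 * Real.log m) ^ δ := by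
    have g1 : Real.log ((m + blk c m : ℕ) : ℝ) ^ δ ≤ (2 * Real.log m) ^ δ := Real.rpow_le_rpow hl0 hl hδ0.le
    have g2 : 1 ≤ (2 * Real.log (m : ℝ)) ^ δ := Real.one_le_rpow hl1 hδ0.le
    linarith
  calc ((z (m + blk c m) : ℝ) + 1) ^ B ≤ (2 * (2 * Real.log m) ^ δ) ^ B := by gcongr
    _ = 2 ^ B * (2 * Real.log m) ^ (δ * B) := by
        rw [mul_pow, ← Real.rpow_natCast ((2 * Real.log (m : ℝ)) ^ δ), ← Real.rpow_mul (by linarith)]
    _ ≤ 2 ^ B * (2 * Real.log m) ^ (1 / 2 : ℝ) := by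
        gcongr
    _ = 2 ^ B * √(2 * Real.log m) := by rw [Real.sqrt_eq_rpow]
    _ ≤ Real.log m := by
        have hl00 : 0 ≤ Real.log (m : ℝ) := by linarith
        rw [← Real.sqrt_sq hl00, ← Real.sqrt_sq (show (0 : ℝ) ≤ 2 ^ B by positivity), ← Real.sqrt_mul (by positivity)]
        apply Real.sqrt_le_sqrt
        rw [Real.sqrt_sq hl00]
        have e1 : ((2 : ℝ) ^ B) ^ 2 = 4 ^ B := by
          rw [← pow_mul, mul_comm, pow_mul]
          norm_num
        rw [e1]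
        nlinarith

lemma wt_nonneg (P : Set ℕ) (z : ℕ → ℕ) (n : ℕ) : 0 ≤ wt P z n := by
  classical
  unfold wt
  split_ifs
  · exact zero_le_one.trans (W_ge _ _)
  · exact le_rfl

lemma rho1_wt (P : Set ℕ) (z : ℕ → ℕ) (n : ℕ) (h : W P (z n) / Real.log n < 1) :
    rho1 P z n = wt P z n / Real.log n := by
  classical
  unfold rho1 wt
  split_ifs
  · exact min_eq_right h.le
  · rw [zero_div]

theorem wt_tendsto (P : Set ℕ) (z : ℕ → ℕ) (hm : Monotone z)
    (hz : ∀ δ : ℝ, 0 < δ → ∀ᶠ n : ℕ in atTop, (z n : ℝ) ≤ Real.log n ^ δ) (c : ℝ) (hc : 0 < c) :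
    Tendsto (fun m : ℕ => (∑ n ∈ Finset.Ioc m (m + blk c m), wt P z n) / Real.log m ^ 2) atTop (𝓝 c) := by
  rw [Metric.tendsto_nhds]
  intro e he
  obtain ⟨K, B, hK, H⟩ := block_sum (e / (4 * c)) (by positivity)
  filter_upwards [z_pow z hz c hc B, logN'.eventually_ge_atTop (max 1 (max (4 * K / e) (4 / e)))] with m h1 h2
  have hl1 : 1 ≤ Real.log m := (le_max_left _ _).trans h2
  have hlK : 4 * K / e ≤ Real.log m := ((le_max_left _ _).trans (le_max_right _ _)).trans h2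
  have hle : 4 / e ≤ Real.log m := ((le_max_right _ _).trans (le_max_right _ _)).trans h2
  have h3 := H P z hm m (blk c m)
  have hLle : (blk c m : ℝ) ≤ c * Real.log m ^ 2 := by
    unfold blk
    exact Nat.floor_le (by positivity)
  have hLge : c * Real.log m ^ 2 - 1 ≤ blk c m := by
    unfold blk
    exact (Nat.sub_one_lt_floor _).le
  have h4 : e / (4 * c) * (blk c m : ℝ) ≤ e / 4 * Real.log m ^ 2 := by
    calc e / (4 * c) * (blk c m : ℝ) ≤ e / (4 * c) * (c * Real.log m ^ 2) := by gcongr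
      _ = e / 4 * Real.log m ^ 2 := by field_simp
  have h5 : K * ((z (m + blk c m) : ℝ) + 1) ^ B ≤ e / 4 * Real.log m ^ 2 := by
    rw [div_le_iff₀ he] at hlK
    calc K * ((z (m + blk c m) : ℝ) + 1) ^ B ≤ K * Real.log m := by gcongr
      _ ≤ (e / 4 * Real.log m) * Real.log m := by
        gcongr
        linarith
      _ = e / 4 * Real.log m ^ 2 := by ring
  have h6 : 1 ≤ e / 4 * Real.log m ^ 2 := by
    rw [div_le_iff₀ he] at hle
    nlinarith
  have hl2 : 0 < Real.log m ^ 2 := by positivity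
  rw [Real.dist_eq]
  have e1 : (∑ n ∈ Finset.Ioc m (m + blk c m), wt P z n) / Real.log m ^ 2 - c =
      (∑ n ∈ Finset.Ioc m (m + blk c m), wt P z n - c * Real.log m ^ 2) / Real.log m ^ 2 := by
    field_simp
  rw [e1, abs_div, abs_of_pos hl2, div_lt_iff₀ hl2, abs_lt]
  obtain ⟨g1, g2⟩ := abs_le.1 h3
  have h7 : 0 < e * Real.log m ^ 2 := by positivity
  constructor <;> nlinarith

theorem hsum (P : Set ℕ) (z : ℕ → ℕ) (hm : Monotone z)
    (hz : ∀ δ : ℝ, 0 < δ → ∀ᶠ n : ℕ in atTop, (z n : ℝ) ≤ Real.log n ^ δ)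
    (hV : ∀ᶠ n : ℕ in atTop, W P (z n) / Real.log n < 1) (c : ℝ) (hc : 0 < c) :
    Tendsto (fun m : ℕ => (∑ n ∈ Finset.Ioc m (m + blk c m), rho1 P z n) / Real.log m) atTop (𝓝 c) := by
  have h1 := wt_tendsto P z hm hz c hc
  have h2 : Tendsto (fun m : ℕ => Real.log m / Real.log (2 * m)) atTop (𝓝 1) := by
    have g1 : Tendsto (fun m : ℕ => (1 + Real.log 2 / Real.log (m : ℝ))⁻¹) atTop (𝓝 1) := by
      have g2 : Tendsto (fun m : ℕ => Real.log 2 / Real.log (m : ℝ)) atTop (𝓝 0) :=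
        tendsto_const_nhds.div_atTop logN'
      have g3 := (g2.const_add 1).inv₀ (by norm_num)
      simpa using g3
    refine g1.congr' ?_
    filter_upwards [logN'.eventually_gt_atTop 0, eventually_ge_atTop 1] with m k1 k2
    have hm0 : (0 : ℝ) < m := by exact_mod_cast k2
    rw [Real.log_mul (by norm_num) hm0.ne']
    have : 0 < Real.log 2 + Real.log (m : ℝ) := by
      have := Real.log_pos (show (1 : ℝ) < 2 by norm_num)
      linarith
    field_simp
    ring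
  have h3 := h1.mul h2
  rw [mul_one] at h3
  refine tendsto_of_tendsto_of_tendsto_of_le_of_le' h3 h1 ?_ ?_
  · filter_upwards [eventually_forall_ge_atTop.2 hV, blk_le c hc, logN'.eventually_gt_atTop 0, eventually_ge_atTop 2]
      with m k1 k2 k3 k4
    have hm0 : (2 : ℝ) ≤ m := by exact_mod_cast k4
    have hl2 : 0 < Real.log (2 * (m : ℝ)) := Real.log_pos (by linarith)
    have e1 : (∑ n ∈ Finset.Ioc m (m + blk c m), wt P z n) / Real.log m ^ 2 * (Real.log m / Real.log (2 * m)) =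
        (∑ n ∈ Finset.Ioc m (m + blk c m), wt P z n / Real.log (2 * m)) / Real.log m := by
      rw [← Finset.sum_div]
      field_simp
    rw [e1]
    apply div_le_div_of_nonneg_right _ k3.le
    apply Finset.sum_le_sum
    intro n hn
    rw [Finset.mem_Ioc] at hn
    rw [rho1_wt P z n (k1 n hn.1.le)]
    have hn0 : (1 : ℝ) < n := by
      have : 1 < n := by omega
      exact_mod_cast this
    have hln : 0 < Real.log (n : ℝ) := Real.log_pos hn0
    apply div_le_div_of_nonneg_left (wt_nonneg P z n) hln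
    apply Real.log_le_log (by linarith)
    have : n ≤ 2 * m := by omega
    exact_mod_cast this
  · filter_upwards [eventually_forall_ge_atTop.2 hV, logN'.eventually_gt_atTop 0, eventually_ge_atTop 2]
      with m k1 k3 k4
    have hm0 : (2 : ℝ) ≤ m := by exact_mod_cast k4
    have e1 : (∑ n ∈ Finset.Ioc m (m + blk c m), wt P z n) / Real.log m ^ 2 =
        (∑ n ∈ Finset.Ioc m (m + blk c m), wt P z n / Real.log m) / Real.log m := by
      rw [← Finset.sum_div]
      field_simp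
    rw [e1]
    apply div_le_div_of_nonneg_right _ k3.le
    apply Finset.sum_le_sum
    intro n hn
    rw [Finset.mem_Ioc] at hn
    rw [rho1_wt P z n (k1 n hn.1.le)]
    apply div_le_div_of_nonneg_left (wt_nonneg P z n) k3
    apply Real.log_le_log (by linarith)
    exact_mod_cast hn.1.le

lemma rho_zero (P : Set ℕ) (z : ℕ → ℕ)
    (hz : ∀ δ : ℝ, 0 < δ → ∀ᶠ n : ℕ in atTop, (z n : ℝ) ≤ Real.log n ^ δ) : Tendsto (rho1 P z) atTop (𝓝 0) := by
  classical
  obtain ⟨C3, hC3, hW⟩ := W0_lin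
  have h1 : Tendsto (fun n : ℕ => 2 * C3 * (√(Real.log (n : ℝ)))⁻¹) atTop (𝓝 0) := by
    have g1 : Tendsto (fun n : ℕ => (√(Real.log (n : ℝ)))⁻¹) atTop (𝓝 0) :=
      tendsto_inv_atTop_zero.comp (Real.tendsto_sqrt_atTop.comp logN')
    have g2 := g1.const_mul (2 * C3)
    rwa [mul_zero] at g2
  refine squeeze_zero' (Eventually.of_forall fun n => (rho1_bounds P z n).1) ?_ h1
  filter_upwards [hz (1 / 2) (by norm_num), logN'.eventually_ge_atTop 1] with n h2 h3
  rw [← Real.sqrt_eq_rpow] at h2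
  have hs1 : 1 ≤ √(Real.log (n : ℝ)) := Real.one_le_sqrt.2 h3
  have hss : √(Real.log (n : ℝ)) * √(Real.log (n : ℝ)) = Real.log n := Real.mul_self_sqrt (by linarith)
  have h4 : W P (z n) ≤ C3 * (2 * √(Real.log (n : ℝ))) := by
    have g1 : W P (z n) ≤ C3 * ((z n : ℝ) + 1) := by
      refine (W_le P (z n)).trans ((W0_mono (Nat.le_succ (z n))).trans ?_)
      have := hW (z n + 1) (by omega)
      push_cast at this
      exact this
    refine g1.trans ?_
    gcongr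
    linarith
  have h5 : W P (z n) / Real.log n ≤ 2 * C3 * (√(Real.log (n : ℝ)))⁻¹ := by
    rw [div_le_iff₀ (by linarith)]
    calc W P (z n) ≤ C3 * (2 * √(Real.log (n : ℝ))) := h4
      _ = 2 * C3 * ((√(Real.log (n : ℝ)))⁻¹ * (√(Real.log (n : ℝ)) * √(Real.log (n : ℝ)))) := by
        field_simp
      _ = 2 * C3 * (√(Real.log (n : ℝ)))⁻¹ * Real.log n := by rw [hss]; ring
  unfold rho1
  split_ifs
  · exact (min_le_right _ _).trans h5
  · positivity

/-- **Shanks' asymptotic formula** in sequential random models -/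
theorem shanks {Ω : Type} {m0 : MeasurableSpace Ω} {μ : Measure Ω} [IsProbabilityMeasure μ]
    {ℱ : Filtration ℕ m0} {A : ℕ → Set Ω} (hA : ∀ n, MeasurableSet[ℱ n] (A n)) (P : Set ℕ) (z : ℕ → ℕ)
    (hm : Monotone z) (hz : ∀ δ : ℝ, 0 < δ → ∀ᶠ n : ℕ in atTop, (z n : ℝ) ≤ Real.log n ^ δ)
    (hcop : ∀ n, ¬ Rough P z n → A n = ∅)
    (hd : ∀ᵐ ω ∂μ, Tendsto (fun n : ℕ => dens μ ℱ A n ω * Real.log n / W P (z (n + 1)))
      (atTop ⊓ 𝓟 {n : ℕ | Rough P z (n + 1)}) (𝓝 1)) :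
    ∀ᵐ ω ∂μ, Tendsto (fun g : ℕ => Real.log (First {k | ω ∈ A k} g) / √(g : ℝ)) atTop (𝓝 1) := by
  have hV : ∀ᶠ n : ℕ in atTop, W P (z n) / Real.log n < 1 := by
    refine short P 1 z ?_
    filter_upwards [hz 1 one_pos] with n hn
    rwa [Real.rpow_one, ← pow_one (Real.log (n : ℝ))] at hn
  have hprof := profile P z hV hcop hd
  have hs := hsum P z hm hz hV
  have hρ0 := rho_zero P z hz
  have h1 : ∀ c : ℝ, ∀ j : ℕ, 1 < 1 + 1 / ((j : ℝ) + 1) := fun _ j => by
    have : 0 < 1 / ((j : ℝ) + 1) := by positivity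
    linarith
  have h2 : ∀ᵐ ω ∂μ, ∀ j : ℕ, ∀ᶠ m : ℕ in atTop, ∃ n, m < n ∧ n ≤ m + blk (1 + 1 / ((j : ℝ) + 1)) m ∧ ω ∈ A n :=
    ae_all_iff.2 fun j => as_fin hA (rho1 P z) (rho1_bounds P z) hprof hs _ (h1 0 j)
  have h3 : ∀ᵐ ω ∂μ, ∀ j : ℕ, ∀ᶠ X : ℕ in atTop, ∃ s, X ≤ s ∧ s ≤ 2 * X ∧ ∀ n, s < n →
      n ≤ s + blk (1 - 1 / ((j : ℝ) + 2)) X → ω ∉ A n := by
    refine ae_all_iff.2 fun j => as_io hA (rho1 P z) (rho1_bounds P z) hρ0 hprof hs _ ?_ ?_
    · have : 1 / ((j : ℝ) + 2) < 1 := by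
        rw [div_lt_one (by positivity)]
        have : (0 : ℝ) ≤ j := Nat.cast_nonneg j
        linarith
      linarith
    · have : 0 < 1 / ((j : ℝ) + 2) := by positivity
      linarith
  have hblk : ∀ c c' : ℝ, c ≤ c' → ∀ m : ℕ, blk c m ≤ blk c' m := by
    intro c c' h m
    unfold blk
    apply Nat.floor_le_floor
    gcongr
  filter_upwards [h2, h3] with ω g2 g3
  refine det _ ?_ ?_
  · intro c hc0 hc1
    obtain ⟨j, hj⟩ := exists_nat_one_div_lt (show (0 : ℝ) < 1 - c by linarith)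
    filter_upwards [g3 j] with X hX
    obtain ⟨s, k1, k2, k3⟩ := hX
    refine ⟨s, k1, k2, fun n l1 l2 => k3 n l1 ?_⟩
    have k4 : c ≤ 1 - 1 / ((j : ℝ) + 2) := by
      have : 1 / ((j : ℝ) + 2) ≤ 1 / ((j : ℝ) + 1) := by
        apply one_div_le_one_div_of_le (by positivity)
        linarith
      linarith
    exact l2.trans (Nat.add_le_add_left (hblk _ _ k4 X) s)
  · intro c hc
    obtain ⟨j, hj⟩ := exists_nat_one_div_lt (show (0 : ℝ) < c - 1 by linarith)
    filter_upwards [g2 j] with m hm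
    obtain ⟨n, k1, k2, k3⟩ := hm
    have k4 : 1 + 1 / ((j : ℝ) + 1) ≤ c := by linarith
    exact ⟨n, k1, k2.trans (Nat.add_le_add_left (hblk _ _ k4 m) m), k3⟩

end Pool.Agent.J6H15.SM
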