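import Mathlib
import Pool.Agent.J6H15.SM.Lin
import Pool.Agent.J6H15.SM.Gen
import Pool.Agent.J6H15.SM.Main

/-! # Gaps of the order `(log n) ^ 2` in sequential random models with a sieve up to `(log n) ^ θ`, `θ < 1` -/

set_option autoImplicit false
set_option linter.unusedSectionVars false

open Filter Finset
open scoped Topology

namespace Pool.Agent.J6H15.SM

open Pool.Agent.J6H13.UM

lemma split (z : ℕ → ℕ) (hz : Monotone z) (w m L : ℕ) : ∃ t, m ≤ t ∧ t ≤ m + L ∧
    (∀ n, m < n → n ≤ t → z n ≤ w) ∧ (∀ n, t < n → n ≤ m + L → w < z n) := by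
  induction L with
  | zero => exact ⟨m, le_rfl, le_rfl, fun n h1 h2 => by omega, fun n h1 h2 => by omega⟩
  | succ L ih =>
    obtain ⟨t, h1, h2, h3, h4⟩ := ih
    by_cases h : z (m + (L + 1)) ≤ w
    · exact ⟨m + (L + 1), by omega, by omega, fun n h5 h6 => (hz h6).trans h, fun n h5 h6 => by omega⟩
    · refine ⟨t, h1, by omega, h3, fun n h5 h6 => ?_⟩
      by_cases h7 : n ≤ m + L
      · exact h4 n h5 h7
      · have h8 : n = m + (L + 1) := by omega
        rw [h8]
        omega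

lemma W_all (P : Set ℕ) (hP : ∀ q : ℕ, q.Prime → q ∈ P) (x : ℕ) : W P x = W0 x := by
  classical
  unfold W W0
  congr 1
  ext q
  simp only [Finset.mem_filter]
  exact ⟨fun h => ⟨h.1, h.2.1⟩, fun h => ⟨h.1, h.2, hP q h.2⟩⟩

lemma W0_low : ∀ᶠ x : ℕ in atTop, Real.log x ≤ W0 x := by
  have h := Pool.Agent.H305R2.mertens_three
  have h1 : ∀ᶠ N : ℕ in atTop, 1 < W0 N / Real.log N := by
    apply h.eventually
    apply lt_mem_nhds
    rw [Real.one_lt_exp_iff]
    linarith [Real.one_half_lt_eulerMascheroniConstant]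
  filter_upwards [h1, logN'.eventually_gt_atTop 0] with x h2 h3
  rw [lt_div_iff₀ h3] at h2
  linarith

lemma c1 (K ε : ℝ) (B : ℕ) (hε : 0 < ε) (hεB : ε * B ≤ 1 / 2) (hK : 0 ≤ K) :
    ∀ᶠ x : ℝ in atTop, K * (x ^ ε + 1) ^ B ≤ x := by
  filter_upwards [eventually_ge_atTop (max 1 ((K * 2 ^ B) ^ 2))] with x hx
  have hx1 : 1 ≤ x := (le_max_left _ _).trans hx
  have hx2 : (K * 2 ^ B) ^ 2 ≤ x := (le_max_right _ _).trans hx
  have h1 : 1 ≤ x ^ ε := Real.one_le_rpow hx1 hε.le
  calc K * (x ^ ε + 1) ^ B ≤ K * (2 * x ^ ε) ^ B := by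
        gcongr
        linarith
    _ = (K * 2 ^ B) * x ^ (ε * B) := by
        rw [mul_pow, ← Real.rpow_natCast (x ^ ε), ← Real.rpow_mul (by linarith)]
        ring
    _ ≤ (K * 2 ^ B) * x ^ (1 / 2 : ℝ) := by gcongr
    _ = (K * 2 ^ B) * √x := by rw [Real.sqrt_eq_rpow]
    _ ≤ √x * √x := by
        gcongr
        rw [← Real.sqrt_sq (show 0 ≤ K * 2 ^ B by positivity)]
        exact Real.sqrt_le_sqrt hx2
    _ = x := Real.mul_self_sqrt (by linarith)

lemma c2 (θ E : ℝ) (hθE : 2 * θ < E) : ∀ᶠ x : ℝ in atTop, (2 * x) ^ θ < x ^ ((θ + E / 2) / 2) := by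
  have h1 := (tendsto_rpow_atTop (show 0 < (E / 2 - θ) / 2 by linarith)).eventually_gt_atTop ((2 : ℝ) ^ θ)
  filter_upwards [h1, eventually_gt_atTop 0] with x h2 h3
  have h5 : 0 < x ^ θ := by positivity
  rw [Real.mul_rpow (by norm_num) h3.le]
  calc (2 : ℝ) ^ θ * x ^ θ < x ^ ((E / 2 - θ) / 2) * x ^ θ := by gcongr
    _ = x ^ ((θ + E / 2) / 2) := by
        rw [← Real.rpow_add h3]
        congr 1
        ring

/-- the length of the blocks -/
noncomputable def blE (C E : ℝ) (m : ℕ) : ℕ := ⌊C * Real.log m ^ E⌋₊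

lemma blE_le (C E : ℝ) (hC : 0 < C) : ∀ᶠ m : ℕ in atTop, blE C E m ≤ m := by
  have h1 := (isLittleO_log_rpow_rpow_atTop E (show (0 : ℝ) < 1 by norm_num)).bound
    (show (0 : ℝ) < 1 / C by positivity)
  filter_upwards [tendsto_natCast_atTop_atTop.eventually h1, logN'.eventually_ge_atTop 1,
    eventually_ge_atTop 1] with X h2 h3 h4
  rw [Real.norm_eq_abs, Real.norm_eq_abs, abs_of_nonneg (Real.rpow_nonneg (by linarith) _),
    abs_of_nonneg (Real.rpow_nonneg (Nat.cast_nonneg X) _), Real.rpow_one] at h2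
  have h5 : C * Real.log X ^ E ≤ X := by
    calc C * Real.log X ^ E ≤ C * (1 / C * X) := by gcongr
      _ = X := by field_simp
  have h6 : (blE C E X : ℝ) ≤ X := by
    unfold blE
    exact (Nat.floor_le (by
      have := Real.rpow_nonneg (show 0 ≤ Real.log (X : ℝ) by linarith) E
      positivity)).trans h5
  exact_mod_cast h6

lemma c3 (δ τ' : ℝ) (hδ : 0 < δ) (hτ1 : τ' < 1) :
    ∀ᶠ Y : ℕ in atTop, 1 ≤ Real.log Y ∧ 20 * Real.log Y ^ 2 * (Y : ℝ) ^ τ' ≤ δ * Y := by
  have h1 := (isLittleO_log_rpow_rpow_atTop (2 : ℝ) (show (0 : ℝ) < 1 - τ' by linarith)).bound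
    (show (0 : ℝ) < δ / 20 by positivity)
  filter_upwards [tendsto_natCast_atTop_atTop.eventually h1, logN'.eventually_ge_atTop 1,
    eventually_ge_atTop 1] with X h2 h3 h4
  have hX0 : (0 : ℝ) < X := by exact_mod_cast h4
  rw [Real.norm_eq_abs, Real.norm_eq_abs, abs_of_nonneg (Real.rpow_nonneg (by linarith) _),
    abs_of_nonneg (Real.rpow_nonneg (Nat.cast_nonneg X) _), show (2 : ℝ) = ((2 : ℕ) : ℝ) by norm_num,
    Real.rpow_natCast] at h2
  refine ⟨h3, ?_⟩
  calc 20 * Real.log X ^ 2 * (X : ℝ) ^ τ' ≤ 20 * (δ / 20 * (X : ℝ) ^ (1 - τ')) * (X : ℝ) ^ τ' := by gcongr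
    _ = δ * ((X : ℝ) ^ (1 - τ') * (X : ℝ) ^ τ') := by ring
    _ = δ * X := by
        rw [← Real.rpow_add hX0, show 1 - τ' + τ' = 1 by ring, Real.rpow_one]

set_option maxHeartbeats 2000000 in
theorem cra_sum (θ E : ℝ) (hθ0 : 0 < θ) (hE : 2 ≤ E) (hθE : 2 * θ < E) : ∃ C : ℝ, 0 < C ∧ ∀ (P : Set ℕ),
    (∀ q : ℕ, q.Prime → q ∈ P) → ∀ z : ℕ → ℕ, Monotone z →
    (∀ᶠ n : ℕ in atTop, (z n : ℝ) ≤ Real.log n ^ θ) →
    ∀ᶠ m : ℕ in atTop, 4 * Real.log m ≤ ∑ n ∈ Finset.Ioc m (m + blE C E m), rho1 P z n := by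
  classical
  obtain ⟨K, B, hK, HB⟩ := block_sum (1 / 2) (by norm_num)
  obtain ⟨δ, τ', hδ, hτ0, hτ1, Y0, HL⟩ := lin_low ((θ + E / 2) / (2 * E)) (by positivity) (by
    rw [div_lt_div_iff₀ (by linarith) (by norm_num)]
    linarith)
  obtain ⟨ε, hεdef⟩ : ∃ ε : ℝ, ε = 1 / (2 * ((B : ℝ) + 1)) := ⟨_, rfl⟩
  have hε : 0 < ε := by rw [hεdef]; positivity
  have hεB : ε * B ≤ 1 / 2 := by
    rw [hεdef, div_mul_eq_mul_div, div_le_div_iff₀ (by positivity) (by norm_num)]
    linarith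
  obtain ⟨Y1, hY1⟩ := eventually_atTop.1 (c3 δ τ' hδ hτ1)
  obtain ⟨N1, hN1⟩ := eventually_atTop.1 W0_low
  obtain ⟨C, hC⟩ : ∃ C : ℝ, C = 40 + 32 * (E + 1) / (δ * ε) := ⟨_, rfl⟩
  have hC40 : 40 ≤ C := by
    rw [hC]
    have : 0 < 32 * (E + 1) / (δ * ε) := by positivity
    linarith
  have hC0 : 0 < C := by linarith
  have hCδ : 32 * (E + 1) + δ * ε ≤ δ * ε * C := by
    rw [hC]
    have h1 : δ * ε * (40 + 32 * (E + 1) / (δ * ε)) = 40 * (δ * ε) + 32 * (E + 1) := by
      field_simp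
    rw [h1]
    have : 0 < δ * ε := by positivity
    linarith
  refine ⟨C, hC0, ?_⟩
  intro P hP z hz hzθ
  have hV : ∀ᶠ n : ℕ in atTop, W P (z n) / Real.log n < 1 := by
    apply short P ⌈θ⌉₊ z
    filter_upwards [hzθ, logN'.eventually_ge_atTop 1] with n h1 h2
    calc (z n : ℝ) ≤ Real.log n ^ θ := h1
      _ ≤ Real.log n ^ ((⌈θ⌉₊ : ℕ) : ℝ) := Real.rpow_le_rpow_of_exponent_le h2 (Nat.le_ceil θ)
      _ = _ := Real.rpow_natCast _ _
  have hc4 : ∀ᶠ x : ℝ in atTop, (N1 : ℝ) ≤ x ^ ε := (tendsto_rpow_atTop hε).eventually_ge_atTop _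
  filter_upwards [eventually_forall_ge_atTop.2 hzθ, eventually_forall_ge_atTop.2 hV, blE_le C E hC0,
    logN'.eventually (c1 K ε B hε hεB hK), logN'.eventually (c2 θ E hθE), logN'.eventually hc4,
    logN'.eventually_ge_atTop (max (max 1 C) (max (Y0 : ℝ) Y1)), eventually_ge_atTop 2]
    with m e1 e2 e3 e4 e5 e6 e7 e8
  obtain ⟨x, hx⟩ : ∃ x : ℝ, x = Real.log m := ⟨_, rfl⟩
  rw [← hx] at e4 e5 e6 e7 ⊢
  have hx1 : 1 ≤ x := ((le_max_left _ _).trans (le_max_left _ _)).trans e7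
  have hxC : C ≤ x := ((le_max_right _ _).trans (le_max_left _ _)).trans e7
  have hxY0 : (Y0 : ℝ) ≤ x := ((le_max_left _ _).trans (le_max_right _ _)).trans e7
  have hxY1 : (Y1 : ℝ) ≤ x := ((le_max_right _ _).trans (le_max_right _ _)).trans e7
  have hx0 : 0 < x := by linarith
  have hm2 : (2 : ℝ) ≤ m := by exact_mod_cast e8
  obtain ⟨L, hL⟩ : ∃ L : ℕ, L = blE C E m := ⟨_, rfl⟩
  rw [← hL] at e3 ⊢
  have hLle : (L : ℝ) ≤ C * x ^ E := by
    rw [hL]
    unfold blE
    rw [← hx]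
    exact Nat.floor_le (by positivity)
  have hLge : C * x ^ E - 1 ≤ L := by
    rw [hL]
    unfold blE
    rw [← hx]
    exact (Nat.sub_one_lt_floor _).le
  have hxE : x ^ 2 ≤ x ^ E := by
    rw [← Real.rpow_natCast x 2]
    exact Real.rpow_le_rpow_of_exponent_le hx1 (by exact_mod_cast hE)
  have hxx : x ≤ x ^ 2 := by nlinarith
  have hLx : x ^ E ≤ L := by
    have : 40 * x ^ E ≤ C * x ^ E := by gcongr
    nlinarith
  have hLx2 : x ^ 2 ≤ L := hxE.trans hLx
  -- logarithms of the elements of the block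
  have hlogn : ∀ n, m < n → n ≤ m + L → 0 < Real.log n ∧ Real.log n ≤ 2 * x := by
    intro n h1 h2
    have h3 : (m : ℝ) < n := by exact_mod_cast h1
    refine ⟨Real.log_pos (by linarith), ?_⟩
    have h4 : (n : ℝ) ≤ (m : ℝ) ^ 2 := by
      have h5 : (n : ℝ) ≤ 2 * m := by
        have : n ≤ 2 * m := by omega
        exact_mod_cast this
      nlinarith
    have h5 := Real.log_le_log (by linarith) h4
    rw [Real.log_pow] at h5
    rw [hx]
    exact_mod_cast h5
  have hrho : ∀ n, m < n → n ≤ m + L → wt P z n / (2 * x) ≤ rho1 P z n := by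
    intro n h1 h2
    obtain ⟨h3, h4⟩ := hlogn n h1 h2
    rw [rho1_wt P z n (e2 n h1.le)]
    have := wt_nonneg P z n
    gcongr
  have hrho0 : ∀ n ∈ Finset.Ioc m (m + L), 0 ≤ rho1 P z n := fun n _ => (rho1_bounds P z n).1
  obtain ⟨w, hw⟩ : ∃ w : ℕ, w = ⌊x ^ ε⌋₊ := ⟨_, rfl⟩
  have hwle : (w : ℝ) ≤ x ^ ε := by
    rw [hw]
    exact Nat.floor_le (by positivity)
  have hwlt : x ^ ε < (w : ℝ) + 1 := by
    rw [hw]
    exact Nat.lt_floor_add_one _
  obtain ⟨t, ht1, ht2, ht3, ht4⟩ := split z hz w m L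
  rcases le_total (L : ℝ) (2 * ((t : ℝ) - m)) with hcase | hcase
  · -- the sieve is small on half of the block
    have htm : m < t := by
      have h1 : (0 : ℝ) < (t : ℝ) - m := by
        have : 0 < x ^ 2 := by positivity
        linarith
      have h2 : (m : ℝ) < t := by linarith
      exact_mod_cast h2
    have h1 := HB P z hz m (t - m)
    rw [show m + (t - m) = t by omega, Nat.cast_sub ht1] at h1
    have h2 : (z t : ℝ) ≤ x ^ ε := by
      have : z t ≤ w := ht3 t htm le_rfl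
      have h3 : (z t : ℝ) ≤ w := by exact_mod_cast this
      linarith
    have h3 : K * ((z t : ℝ) + 1) ^ B ≤ x := by
      refine le_trans ?_ e4
      gcongr
    have h4 := (abs_le.1 h1).1
    have h5 : (C * x ^ E - 1) / 4 - x ≤ ∑ n ∈ Finset.Ioc m t, wt P z n := by linarith
    have h6 : (∑ n ∈ Finset.Ioc m t, wt P z n) / (2 * x) ≤ ∑ n ∈ Finset.Ioc m (m + L), rho1 P z n := by
      rw [sum_div]
      calc ∑ n ∈ Finset.Ioc m t, wt P z n / (2 * x) ≤ ∑ n ∈ Finset.Ioc m t, rho1 P z n := by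
            apply sum_le_sum
            intro n hn
            rw [Finset.mem_Ioc] at hn
            exact hrho n hn.1 (by omega)
        _ ≤ _ := by
            apply sum_le_sum_of_subset_of_nonneg
            · exact Finset.Ioc_subset_Ioc_right ht2
            · intro n hn _
              exact hrho0 n hn
    refine le_trans ?_ h6
    rw [le_div_iff₀ (by positivity)]
    refine le_trans ?_ h5
    have h7 : 40 * x ^ 2 ≤ C * x ^ E := by gcongr
    nlinarith
  · -- the sieve is large on half of the block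
    obtain ⟨Z, hZ⟩ : ∃ Z, Z = z (m + L) := ⟨_, rfl⟩
    have hlogL : Real.log ((m + L : ℕ) : ℝ) ≤ 2 * x := by
      have hL0 : 0 < L := by
        have : (0 : ℝ) < L := by
          have : 0 < x ^ 2 := by positivity
          linarith
        exact_mod_cast this
      exact (hlogn (m + L) (by omega) le_rfl).2
    have hZ1 : (Z : ℝ) < (L : ℝ) ^ ((θ + E / 2) / (2 * E)) := by
      calc (Z : ℝ) ≤ Real.log ((m + L : ℕ) : ℝ) ^ θ := by
            rw [hZ]
            exact e1 (m + L) (Nat.le_add_right _ _)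
        _ ≤ (2 * x) ^ θ := by
            apply Real.rpow_le_rpow (Real.log_natCast_nonneg _) hlogL hθ0.le
        _ < x ^ ((θ + E / 2) / 2) := e5
        _ = (x ^ E) ^ ((θ + E / 2) / (2 * E)) := by
            rw [← Real.rpow_mul hx0.le]
            congr 1
            have : E ≠ 0 := by linarith
            field_simp
        _ ≤ (L : ℝ) ^ ((θ + E / 2) / (2 * E)) := by
            apply Real.rpow_le_rpow (by positivity) hLx (by positivity)
    have hLY0 : Y0 ≤ L := by
      have : (Y0 : ℝ) ≤ L := by linarith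
      exact_mod_cast this
    have hLY1 : Y1 ≤ L := by
      have : (Y1 : ℝ) ≤ L := by linarith
      exact_mod_cast this
    have h1 := HL L hLY0 P t (m + L) Z ht2 hZ1
    obtain ⟨hl1, h2⟩ := hY1 L hLY1
    obtain ⟨l, hl⟩ : ∃ l : ℝ, l = Real.log L := ⟨_, rfl⟩
    rw [← hl] at h1 hl1 h2
    have hl0 : 0 < l := by linarith
    have hL0 : (0 : ℝ) < L := by
      have : 0 < x ^ 2 := by positivity
      linarith
    have hl3 : l ≤ (E + 1) * Real.log x := by
      have h3 : (L : ℝ) ≤ x ^ (E + 1) := by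
        calc (L : ℝ) ≤ C * x ^ E := hLle
          _ ≤ x * x ^ E := by gcongr
          _ = x ^ (E + 1) := by
              rw [Real.rpow_add hx0, Real.rpow_one, mul_comm]
      have h4 := Real.log_le_log hL0 h3
      rw [Real.log_rpow hx0] at h4
      rw [hl]
      exact h4
    have h3 : δ * L / (4 * l) ≤ ((RZ P t (m + L) Z).card : ℝ) := by
      refine le_trans ?_ h1
      have h4 : δ * (L / 2) / l ≤ δ * (((m + L : ℕ) : ℝ) - t) / l := by
        push_cast
        gcongr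
        linarith
      have h5 : 5 * l * (L : ℝ) ^ τ' ≤ δ * L / (4 * l) := by
        rw [le_div_iff₀ (by positivity)]
        calc 5 * l * (L : ℝ) ^ τ' * (4 * l) = 20 * l ^ 2 * (L : ℝ) ^ τ' := by ring
          _ ≤ _ := h2
      have h6 : δ * (L / 2) / l = δ * L / (4 * l) + δ * L / (4 * l) := by
        field_simp
        ring
      linarith
    have hlx : 0 ≤ Real.log x := Real.log_nonneg hx1
    have hterm : ∀ n ∈ RZ P t (m + L) Z, ε * Real.log x / (2 * x) ≤ rho1 P z n := by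
      intro n hn
      unfold RZ at hn
      rw [mem_filter, Finset.mem_Ioc] at hn
      obtain ⟨⟨h4, h5⟩, h6⟩ := hn
      have h7 : Rough P z n := by
        intro q hq1 hq2 hq3
        refine h6 q hq1 hq2 ?_
        rw [hZ]
        exact hq3.trans (hz h5)
      have h8 : w < z n := ht4 n h4 h5
      have h9 : ε * Real.log x ≤ wt P z n := by
        unfold wt
        rw [if_pos h7, W_all P hP]
        have h10 : N1 ≤ w + 1 := by
          have : (N1 : ℝ) ≤ (w : ℝ) + 1 := by linarith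
          exact_mod_cast this
        have h11 : W0 (w + 1) ≤ W0 (z n) := W0_mono (by omega)
        have h12 := hN1 (w + 1) h10
        have h13 : ε * Real.log x ≤ Real.log ((w + 1 : ℕ) : ℝ) := by
          rw [← Real.log_rpow hx0]
          apply Real.log_le_log (by positivity)
          push_cast
          exact hwlt.le
        linarith
      refine le_trans ?_ (hrho n (by omega) h5)
      gcongr
    have h4 : ((RZ P t (m + L) Z).card : ℝ) * (ε * Real.log x / (2 * x)) ≤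
        ∑ n ∈ Finset.Ioc m (m + L), rho1 P z n := by
      calc ((RZ P t (m + L) Z).card : ℝ) * (ε * Real.log x / (2 * x))
          = ∑ n ∈ RZ P t (m + L) Z, ε * Real.log x / (2 * x) := by rw [sum_const, nsmul_eq_mul]
        _ ≤ ∑ n ∈ RZ P t (m + L) Z, rho1 P z n := sum_le_sum hterm
        _ ≤ _ := by
            apply sum_le_sum_of_subset_of_nonneg
            · intro n hn
              unfold RZ at hn
              rw [mem_filter, Finset.mem_Ioc] at hn
              rw [Finset.mem_Ioc]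
              omega
            · intro n hn _
              exact hrho0 n hn
    refine le_trans ?_ h4
    have h5 : δ * L * ε / (8 * (E + 1) * x) ≤
        ((RZ P t (m + L) Z).card : ℝ) * (ε * Real.log x / (2 * x)) := by
      calc δ * L * ε / (8 * (E + 1) * x) ≤ δ * L / (4 * l) * (ε * Real.log x / (2 * x)) := by
            rw [div_mul_div_comm, div_le_div_iff₀ (by positivity) (by positivity)]
            have h6 : 0 ≤ δ * L * ε * x := by positivity
            have h7 := mul_le_mul_of_nonneg_left hl3 h6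
            calc δ * L * ε * (4 * l * (2 * x)) = 8 * (δ * L * ε * x * l) := by ring
              _ ≤ 8 * (δ * L * ε * x * ((E + 1) * Real.log x)) := by linarith
              _ = δ * L * (ε * Real.log x) * (8 * (E + 1) * x) := by ring
        _ ≤ _ := by
            gcongr
    refine le_trans ?_ h5
    rw [le_div_iff₀ (by positivity)]
    have h6 : δ * ε * (C * x ^ E - 1) ≤ δ * ε * L := by gcongr
    have h7 : (32 * (E + 1) + δ * ε) * x ^ E ≤ δ * ε * C * x ^ E := by gcongr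
    have h8 : δ * ε * 1 ≤ δ * ε * x ^ E := by
      have : 1 ≤ x ^ E := by linarith
      gcongr
    have h9 : 32 * (E + 1) * x ^ 2 ≤ 32 * (E + 1) * x ^ E := by gcongr
    linarith

section

open MeasureTheory

/-- **gaps in sequential random models sieved up to a power of the logarithm** -/
theorem cra_main (θ E : ℝ) (hE : 2 ≤ E) (hθE : 2 * θ < E) : ∃ C : ℝ, 0 < C ∧ ∀ z : ℕ → ℕ, Monotone z →
    (∀ᶠ n : ℕ in atTop, (z n : ℝ) ≤ Real.log n ^ θ) →
    ∀ {Ω : Type} {m0 : MeasurableSpace Ω} {μ : Measure Ω} [IsProbabilityMeasure μ]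
      {ℱ : Filtration ℕ m0} {A : ℕ → Set Ω}, (∀ n, MeasurableSet[ℱ n] (A n)) →
      (∀ n, ¬ Rough Set.univ z n → A n = ∅) →
      (∀ᵐ ω ∂μ, Tendsto (fun n : ℕ => Pool.Agent.R528.RM.dens μ ℱ A n ω * Real.log n / W Set.univ (z (n + 1)))
        (atTop ⊓ 𝓟 {n : ℕ | Rough Set.univ z (n + 1)}) (𝓝 1)) →
      ∀ᵐ ω ∂μ, ∀ᶠ m : ℕ in atTop, ∃ n, ω ∈ A n ∧ m < n ∧ (n : ℝ) ≤ m + C * Real.log m ^ E := by
  obtain ⟨θ', hθ'⟩ : ∃ θ' : ℝ, θ' = max θ (1 / 2) := ⟨_, rfl⟩
  have h1 : 0 < θ' := by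
    rw [hθ']
    exact lt_of_lt_of_le (by norm_num) (le_max_right _ _)
  have h2 : 2 * θ' < E := by
    rw [hθ']
    rcases max_choice θ (1 / 2 : ℝ) with h | h <;> rw [h] <;> linarith
  obtain ⟨C, hC, H⟩ := cra_sum θ' E h1 hE h2
  refine ⟨C, hC, ?_⟩
  intro z hz hzθ Ω m0 μ _ ℱ A hA hcop hd
  have hzθ' : ∀ᶠ n : ℕ in atTop, (z n : ℝ) ≤ Real.log n ^ θ' := by
    filter_upwards [hzθ, logN'.eventually_ge_atTop 1] with n h3 h4
    refine h3.trans (Real.rpow_le_rpow_of_exponent_le h4 ?_)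
    rw [hθ']
    exact le_max_left _ _
  have hV : ∀ᶠ n : ℕ in atTop, W Set.univ (z n) / Real.log n < 1 := by
    apply short Set.univ ⌈θ'⌉₊ z
    filter_upwards [hzθ', logN'.eventually_ge_atTop 1] with n h1 h2
    calc (z n : ℝ) ≤ Real.log n ^ θ' := h1
      _ ≤ Real.log n ^ ((⌈θ'⌉₊ : ℕ) : ℝ) := Real.rpow_le_rpow_of_exponent_le h2 (Nat.le_ceil θ')
      _ = _ := Real.rpow_natCast _ _
  have h3 := H Set.univ (fun q _ => Set.mem_univ q) z hz hzθ'
  have h4 := profile Set.univ z hV hcop hd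
  have h5 := fin_gen hA (rho1 Set.univ z) (rho1_bounds Set.univ z) h4 (blE C E) h3
  filter_upwards [h5] with ω hω
  filter_upwards [hω, logN'.eventually_ge_atTop 1] with m h6 h7
  obtain ⟨n, h8, h9, h10⟩ := h6
  refine ⟨n, h10, h8, ?_⟩
  have h11 : (n : ℝ) ≤ (m : ℝ) + (blE C E m : ℝ) := by exact_mod_cast h9
  have h12 : (blE C E m : ℝ) ≤ C * Real.log m ^ E := by
    unfold blE
    exact Nat.floor_le (by
      have := Real.rpow_nonneg (show 0 ≤ Real.log (m : ℝ) by linarith) E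
      positivity)
  linarith

end

end Pool.Agent.J6H15.SM
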